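import Mathlib

set_option autoImplicit false

namespace Pool.Agent.H819R3.NR

/-- The data of a stage: the denominator `P` and the digit length `e`. -/
structure St where
  P : ℕ
  e : ℕ

def tt (k : ℕ) (s : St) : ℕ := (k + 1) * (s.P + s.e + 10)

def mm (k : ℕ) (s : St) : ℕ := Nat.totient s.P * tt k s

def next (r k : ℕ) (s : St) : St := ⟨s.P * (r ^ (mm k s) - 1), s.e + mm k s⟩

def st (r : ℕ) : ℕ → St
  | 0 => ⟨1, 0⟩
  | (k + 1) => next r k (st r k)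

def P (r k : ℕ) : ℕ := (st r k).P
def e (r k : ℕ) : ℕ := (st r k).e
def m (r k : ℕ) : ℕ := mm k (st r k)

lemma P_succ (r k : ℕ) : P r (k + 1) = P r k * (r ^ (m r k) - 1) := rfl
lemma e_succ (r k : ℕ) : e r (k + 1) = e r k + m r k := rfl
lemma m_eq (r k : ℕ) : m r k = Nat.totient (P r k) * ((k + 1) * (P r k + e r k + 10)) := rfl

lemma two_pow_gt (r n : ℕ) (hr : 2 ≤ r) : n + 1 ≤ r ^ n := by
  have h1 : n < 2 ^ n := Nat.lt_two_pow_self
  have h2 : 2 ^ n ≤ r ^ n := Nat.pow_le_pow_left hr n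
  omega

lemma P_pos (r k : ℕ) (hr : 2 ≤ r) : 0 < P r k := by
  induction k with
  | zero => exact Nat.one_pos
  | succ k ih =>
    rw [P_succ]
    have hm : 1 ≤ m r k := by
      rw [m_eq]
      have := Nat.totient_pos.mpr ih
      have h2 : 1 ≤ (k + 1) * (P r k + e r k + 10) := by nlinarith
      exact Nat.mul_le_mul this h2
    have := two_pow_gt r (m r k) hr
    exact Nat.mul_pos ih (by omega)

lemma m_ge (r k : ℕ) (hr : 2 ≤ r) : (k + 1) * (P r k + e r k + 10) ≤ m r k := by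
  rw [m_eq]
  have := Nat.totient_pos.mpr (P_pos r k hr)
  exact Nat.le_mul_of_pos_left _ this

lemma m_ge10 (r k : ℕ) (hr : 2 ≤ r) : 10 ≤ m r k := by
  have h := m_ge r k hr
  nlinarith [Nat.zero_le (P r k), Nat.zero_le (e r k)]

lemma m_ge_e (r k : ℕ) (hr : 2 ≤ r) : e r k + 10 ≤ m r k := by
  have h := m_ge r k hr
  nlinarith [Nat.zero_le (P r k), Nat.zero_le (e r k), Nat.zero_le (k * (P r k + e r k + 10))]

lemma m_succ_ge (r k : ℕ) (hr : 2 ≤ r) : m r k + 10 ≤ m r (k + 1) := by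
  have h := m_ge_e r (k + 1) hr
  rw [e_succ] at h
  omega

lemma m_mono (r : ℕ) (hr : 2 ≤ r) : StrictMono (m r) :=
  strictMono_nat_of_lt_succ (fun k => by have := m_succ_ge r k hr; omega)

lemma P_ge (r k : ℕ) (hr : 2 ≤ r) : m r k * P r k ≤ P r (k + 1) := by
  rw [P_succ, mul_comm]
  apply Nat.mul_le_mul_left
  have := two_pow_gt r (m r k) hr
  omega

lemma P_ge_k (r k : ℕ) (hr : 2 ≤ r) : k + 1 ≤ P r k := by
  induction k with
  | zero => exact le_refl 1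
  | succ k ih =>
    have h1 := P_ge r k hr
    have h2 := m_ge10 r k hr
    nlinarith

/-- `(k + 2) m_k P_k ≤ m_{k+1}` -/
lemma m_next_ge (r k : ℕ) (hr : 2 ≤ r) : (k + 2) * (m r k * P r k) ≤ m r (k + 1) := by
  have h1 := m_ge r (k + 1) hr
  have h2 := P_ge r k hr
  refine le_trans ?_ h1
  apply Nat.mul_le_mul (le_refl _)
  omega

lemma P_coprime (r k : ℕ) (hr : 2 ≤ r) : Nat.Coprime r (P r k) := by
  induction k with
  | zero => exact Nat.coprime_one_right r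
  | succ k ih =>
    rw [P_succ]
    apply Nat.Coprime.mul_right ih
    have hm : 1 ≤ m r k := by have := m_ge10 r k hr; omega
    have h1 := two_pow_gt r (m r k) hr
    have h2 : Nat.Coprime (r ^ (m r k)) (r ^ (m r k) - 1) := by
      have : Nat.Coprime (r ^ (m r k) - 1 + 1) (r ^ (m r k) - 1) := by simp
      rwa [Nat.sub_add_cancel (by omega)] at this
    exact Nat.Coprime.coprime_dvd_left (dvd_pow_self r (by omega)) h2

lemma P_dvd (r k : ℕ) (hr : 2 ≤ r) : ∃ v : ℤ, (r : ℤ) ^ (m r k) - 1 = P r k * v := by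
  have h1 : (r : ℤ) ^ (Nat.totient (P r k)) ≡ 1 [ZMOD (P r k : ℤ)] := by
    have := Nat.ModEq.pow_totient (P_coprime r k hr)
    have h := (Int.natCast_modEq_iff).mpr this
    push_cast at h
    exact h
  have h2 : (r : ℤ) ^ (m r k) ≡ 1 [ZMOD (P r k : ℤ)] := by
    rw [m_eq, pow_mul]
    have := h1.pow ((k + 1) * (P r k + e r k + 10))
    rwa [one_pow] at this
  have h3 := (Int.modEq_iff_dvd.mp h2.symm)
  exact h3

lemma pow_expand (R : ℤ) (n : ℕ) : ∃ q : ℤ, R ^ n = 1 + n * (R - 1) + (R - 1) ^ 2 * q := by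
  induction n with
  | zero => exact ⟨0, by simp⟩
  | succ n ih =>
    obtain ⟨q, hq⟩ := ih
    exact ⟨n + q + (R - 1) * q, by rw [pow_succ, hq]; push_cast; ring⟩

/-! ### The numbers -/

noncomputable def X (r k : ℕ) : ℝ := (P r k : ℝ) / (r : ℝ) ^ (e r k)

lemma X_zero (r : ℕ) : X r 0 = 1 := by simp [X, P, e, st]

lemma X_succ (r k : ℕ) (hr : 2 ≤ r) : X r (k + 1) = X r k * (1 - 1 / (r : ℝ) ^ (m r k)) := by
  unfold X
  rw [P_succ, e_succ]
  have h1 := two_pow_gt r (m r k) hr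
  rw [Nat.cast_mul, Nat.cast_sub (by omega)]
  push_cast
  have hr0 : (r : ℝ) ≠ 0 := by positivity
  rw [pow_add]
  field_simp

lemma rpow_le (r k : ℕ) (hr : 2 ≤ r) : (2 : ℝ) / (r : ℝ) ^ (m r (k + 1)) ≤ 1 / (r : ℝ) ^ (m r k) := by
  have hr0 : (0 : ℝ) < r := by positivity
  have hr1 : (2 : ℝ) ≤ r := by exact_mod_cast hr
  have h := m_succ_ge r k hr
  have h1 : (r : ℝ) ^ (m r k + 1) ≤ (r : ℝ) ^ (m r (k + 1)) :=
    pow_le_pow_right₀ (by linarith) (by omega)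
  rw [pow_succ] at h1
  rw [div_le_div_iff₀ (by positivity) (by positivity)]
  have : (0 : ℝ) < (r : ℝ) ^ (m r k) := by positivity
  nlinarith

lemma one_div_small (r k : ℕ) (hr : 2 ≤ r) : 1 / (r : ℝ) ^ (m r k) ≤ 1 / 1024 := by
  have hr1 : (2 : ℝ) ≤ r := by exact_mod_cast hr
  apply one_div_le_one_div_of_le (by norm_num)
  have h := m_ge10 r k hr
  calc (1024 : ℝ) = 2 ^ 10 := by norm_num
    _ ≤ (r : ℝ) ^ 10 := pow_le_pow_left₀ (by norm_num) hr1 _
    _ ≤ (r : ℝ) ^ (m r k) := pow_le_pow_right₀ (by linarith) h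

lemma X_pos (r k : ℕ) (hr : 2 ≤ r) : 0 < X r k := by
  unfold X
  have := P_pos r k hr
  have hr0 : (0 : ℝ) < r := by positivity
  positivity

lemma X_le_one (r k : ℕ) (hr : 2 ≤ r) : X r k ≤ 1 := by
  induction k with
  | zero => rw [X_zero]
  | succ k ih =>
    rw [X_succ r k hr]
    have h0 := X_pos r k hr
    have : (0 : ℝ) ≤ 1 / (r : ℝ) ^ (m r k) := by positivity
    nlinarith

noncomputable def lb (r k : ℕ) : ℝ := X r k - 2 / (r : ℝ) ^ (m r k)

lemma lb_mono (r : ℕ) (hr : 2 ≤ r) : Monotone (lb r) := monotone_nat_of_le_succ (fun k => by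
  unfold lb
  rw [X_succ r k hr]
  have h1 := X_le_one r k hr
  have h2 := rpow_le r k hr
  have h3 : (0 : ℝ) ≤ 1 / (r : ℝ) ^ (m r k) := by positivity
  have h4 : (2 : ℝ) / (r : ℝ) ^ (m r k) = 1 / (r : ℝ) ^ (m r k) + 1 / (r : ℝ) ^ (m r k) := by ring
  nlinarith)

lemma X_anti (r : ℕ) (hr : 2 ≤ r) : Antitone (X r) := antitone_nat_of_succ_le (fun k => by
  rw [X_succ r k hr]
  have h0 := X_pos r k hr
  have : (0 : ℝ) ≤ 1 / (r : ℝ) ^ (m r k) := by positivity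
  nlinarith)

/-- The deterministic number. -/
noncomputable def XX (r : ℕ) : ℝ := ⨆ k, lb r k

lemma XX_mem (r k : ℕ) (hr : 2 ≤ r) : X r k - 2 / (r : ℝ) ^ (m r k) ≤ XX r ∧ XX r ≤ X r k := by
  have h := Monotone.ciSup_mem_iInter_Icc_of_antitone (lb_mono r hr) (X_anti r hr) (fun k => by
    show X r k - 2 / (r : ℝ) ^ (m r k) ≤ X r k
    have : (0 : ℝ) ≤ 2 / (r : ℝ) ^ (m r k) := by positivity
    linarith)
  rw [Set.mem_iInter] at h
  exact h k

lemma XX_lt (r k : ℕ) (hr : 2 ≤ r) : XX r < X r k := by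
  have h1 := (XX_mem r (k + 1) hr).2
  have h2 := X_succ r k hr
  have h0 := X_pos r k hr
  have hr0 : (0 : ℝ) < r := by positivity
  have : (0 : ℝ) < 1 / (r : ℝ) ^ (m r k) := by positivity
  nlinarith

lemma XX_ge (r : ℕ) (hr : 2 ≤ r) : 1 / 2 ≤ XX r := by
  have h1 := (XX_mem r 0 hr).1
  rw [X_zero] at h1
  have h2 := one_div_small r 0 hr
  have h3 : (2 : ℝ) / (r : ℝ) ^ (m r 0) = 2 * (1 / (r : ℝ) ^ (m r 0)) := by ring
  rw [h3] at h1
  linarith

/-- The approximations of the reciprocal. -/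
noncomputable def Y (r k : ℕ) : ℝ := (X r k)⁻¹

lemma Y_eq (r k : ℕ) : Y r k = (r : ℝ) ^ (e r k) / (P r k : ℝ) := by
  unfold Y X
  rw [inv_div]

lemma Y_pos (r k : ℕ) (hr : 2 ≤ r) : 0 < Y r k := inv_pos.mpr (X_pos r k hr)

lemma Y_le (r k : ℕ) (hr : 2 ≤ r) : Y r k ≤ 2 := by
  have h1 := XX_ge r hr
  have h2 := XX_lt r k hr
  unfold Y
  rw [inv_le_comm₀ (X_pos r k hr) (by norm_num)]
  linarith

lemma Y_close (r k : ℕ) (hr : 2 ≤ r) :
    Y r k ≤ (XX r)⁻¹ ∧ (XX r)⁻¹ ≤ Y r k + 8 / (r : ℝ) ^ (m r k) := by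
  have hX := XX_ge r hr
  obtain ⟨h1, h2⟩ := XX_mem r k hr
  have h0 := X_pos r k hr
  constructor
  · exact inv_anti₀ (by linarith) h2
  · have e1 : (XX r)⁻¹ - Y r k = (X r k - XX r) / (XX r * X r k) := by
      unfold Y
      field_simp
    have h3 : (X r k - XX r) / (XX r * X r k) ≤ (2 / (r : ℝ) ^ (m r k)) / (1 / 4) := by
      apply div_le_div₀ (by positivity) (by linarith) (by norm_num)
      nlinarith
    have h4 : (2 / (r : ℝ) ^ (m r k)) / (1 / 4) = 8 / (r : ℝ) ^ (m r k) := by ring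
    linarith

/-- The basic congruence. -/
lemma Y_rec (r k : ℕ) (hr : 2 ≤ r) (i s : ℕ) : ∃ z : ℤ,
    (r : ℝ) ^ (i * m r k + s) * Y r (k + 1) =
      z + (i + 1) * ((r : ℝ) ^ s * Y r k) + (r : ℝ) ^ s * Y r k / ((r : ℝ) ^ (m r k) - 1) := by
  obtain ⟨v, hv⟩ := P_dvd r k hr
  obtain ⟨q, hq⟩ := pow_expand ((r : ℤ) ^ (m r k)) (i + 1)
  refine ⟨r ^ (s + e r k) * (v * q), ?_⟩
  have hr0 : (r : ℝ) ≠ 0 := by positivity
  have hP0 : (P r k : ℝ) ≠ 0 := by have := P_pos r k hr; positivity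
  have hR1 : (r : ℝ) ^ (m r k) - 1 ≠ 0 := by
    have h1 := one_div_small r k hr
    have h2 : (0 : ℝ) < (r : ℝ) ^ (m r k) := by positivity
    intro h
    have h3 : (r : ℝ) ^ (m r k) = 1 := by linarith
    rw [h3] at h1
    norm_num at h1
  have hqR : ((r : ℝ) ^ (m r k)) ^ (i + 1) = 1 + (i + 1) * ((r : ℝ) ^ (m r k) - 1) +
      ((r : ℝ) ^ (m r k) - 1) ^ 2 * q := by exact_mod_cast hq
  have hvR : (r : ℝ) ^ (m r k) - 1 = P r k * v := by exact_mod_cast hv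
  have hc : ((P r (k + 1) : ℕ) : ℝ) = P r k * ((r : ℝ) ^ (m r k) - 1) := by
    rw [P_succ]
    have h1 := two_pow_gt r (m r k) hr
    rw [Nat.cast_mul, Nat.cast_sub (by omega)]
    push_cast
    ring
  rw [Y_eq, Y_eq, hc, e_succ]
  have e1 : (r : ℝ) ^ (i * m r k + s) * ((r : ℝ) ^ (e r k + m r k) /
      (P r k * ((r : ℝ) ^ (m r k) - 1))) =
      (r : ℝ) ^ (s + e r k) * (((r : ℝ) ^ (m r k)) ^ (i + 1) / (P r k * ((r : ℝ) ^ (m r k) - 1))) := by
    rw [← pow_mul, ← mul_div_assoc, ← mul_div_assoc, ← pow_add, ← pow_add]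
    congr 2
    ring
  rw [e1, hqR]
  push_cast
  rw [pow_add]
  set R1 : ℝ := (r : ℝ) ^ (m r k) - 1 with hR1def
  have hv2 : (v : ℝ) = R1 / P r k := by rw [hvR]; field_simp
  rw [hv2]
  field_simp
  ring

end Pool.Agent.H819R3.NR
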