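import Mathlib
import Pool.Agent.H819R3.NR1

set_option autoImplicit false

namespace Pool.Agent.H819R3.NR

/-- distinct integers in an interval of length `L` -/
lemma card_le_of_interval (S : Finset ℕ) (G : ℕ → ℤ) (hG : Set.InjOn G S) (α L : ℝ) (hL : 0 ≤ L)
    (h : ∀ s ∈ S, α ≤ G s ∧ (G s : ℝ) ≤ α + L) : (S.card : ℝ) ≤ L + 1 := by
  have h1 : S.card = (S.image G).card := (Finset.card_image_of_injOn hG).symm
  have h2 : S.image G ⊆ Finset.Icc ⌈α⌉ ⌊α + L⌋ := by
    intro g hg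
    rw [Finset.mem_image] at hg
    obtain ⟨s, hs, rfl⟩ := hg
    rw [Finset.mem_Icc]
    exact ⟨Int.ceil_le.mpr (h s hs).1, Int.le_floor.mpr (h s hs).2⟩
  have h3 := Finset.card_le_card h2
  rw [← h1, Int.card_Icc] at h3
  have h4 : (S.card : ℝ) ≤ ((⌊α + L⌋ + 1 - ⌈α⌉).toNat : ℝ) := by exact_mod_cast h3
  have h5 := Int.floor_le (α + L)
  have h6 := Int.le_ceil α
  rcases le_or_gt 0 (⌊α + L⌋ + 1 - ⌈α⌉) with h7 | h7
  · have h8 : (((⌊α + L⌋ + 1 - ⌈α⌉).toNat : ℤ) : ℝ) = ((⌊α + L⌋ + 1 - ⌈α⌉ : ℤ) : ℝ) := by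
      rw [Int.toNat_of_nonneg h7]
    push_cast at h8
    linarith
  · have h8 : (⌊α + L⌋ + 1 - ⌈α⌉).toNat = 0 := Int.toNat_eq_zero.mpr h7.le
    rw [h8] at h4
    push_cast at h4
    linarith

/-- Fibre count along a linear phase. -/
lemma fiber_lin (R M : ℕ) (hM : 0 < M) (hR : 0 < R) (u : ℤ) (hu : IsCoprime u (M : ℤ))
    (c0 η : ℝ) (hη : 0 ≤ η) (θ : ℕ → ℝ) (S : Finset ℕ) (hS : Set.InjOn (fun t => t % M) S)
    (hθ : ∀ t ∈ S, ∃ h : ℤ, h + c0 + u * t / M ≤ θ t ∧ θ t ≤ h + c0 + u * t / M + η) (A : ℤ) :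
    ((S.filter (fun t => ⌊θ t * R⌋ % R = A)).card : ℝ) ≤ M * (1 / R + η) + 1 := by
  classical
  choose! h hh using hθ
  have hMR : (0 : ℝ) < M := by exact_mod_cast hM
  have hRR : (0 : ℝ) < R := by exact_mod_cast hR
  set G : ℕ → ℤ := fun t => u * t - M * (⌊θ t * R⌋ / R - h t) with hGdef
  apply card_le_of_interval _ G _ (M * (A / R - c0 - η)) _ (by positivity)
  · intro t ht
    rw [Finset.mem_filter] at ht
    obtain ⟨ht1, ht2⟩ := ht
    obtain ⟨hz1, hz2⟩ := hh t ht1
    have hdiv := Int.emod_add_mul_ediv ⌊θ t * R⌋ R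
    rw [ht2] at hdiv
    set g : ℤ := ⌊θ t * R⌋ / R with hg
    have hf1 := Int.floor_le (θ t * R)
    have hf2 := Int.lt_floor_add_one (θ t * R)
    have hdiv' : ((⌊θ t * R⌋ : ℤ) : ℝ) = A + R * g := by
      rw [← hdiv]; push_cast; ring
    rw [hdiv'] at hf1 hf2
    have hGs : ((G t : ℤ) : ℝ) = u * t - M * (g - h t) := by
      simp only [hGdef]; push_cast; rfl
    rw [hGs]
    have e1 : (u : ℝ) * t / M = (u * t - M * (g - h t)) / M + (g - h t) := by
      field_simp
      ring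
    set y : ℝ := (u * t - M * (g - h t)) / M with hy
    have e2 : (u : ℝ) * t - M * (g - h t) = M * y := by rw [hy]; field_simp
    rw [e1] at hz1 hz2
    rw [e2]
    have f1 : (A : ℝ) / R + g ≤ θ t := by
      have : (A : ℝ) / R + g = (A + R * g) / R := by field_simp
      rw [this, div_le_iff₀ hRR]; linarith
    have f2 : θ t ≤ (A : ℝ) / R + g + 1 / R := by
      have : (A : ℝ) / R + g + 1 / R = (A + R * g + 1) / R := by field_simp
      rw [this, le_div_iff₀ hRR]; linarith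
    constructor
    · apply mul_le_mul_of_nonneg_left _ hMR.le
      linarith
    · rw [← mul_add]
      apply mul_le_mul_of_nonneg_left _ hMR.le
      linarith
  · intro s hs s' hs' heq
    rw [Finset.mem_coe, Finset.mem_filter] at hs hs'
    apply hS hs.1 hs'.1
    simp only [hGdef] at heq
    have hd : (M : ℤ) ∣ u * ((s : ℤ) - s') :=
      ⟨(⌊θ s * R⌋ / R - h s) - (⌊θ s' * R⌋ / R - h s'), by linear_combination heq⟩
    have hd2 : (M : ℤ) ∣ (s : ℤ) - s' := (IsCoprime.dvd_of_dvd_mul_left hu.symm hd)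
    have hmod : (s' : ℤ) ≡ s [ZMOD M] := Int.modEq_iff_dvd.mpr hd2
    have := (Int.natCast_modEq_iff).mp hmod
    exact this.symm

/-- splitting a finset into the classes of a map -/
lemma card_fiberwise_le (S : Finset ℕ) (f : ℕ → ℕ) (n : ℕ) (hf : ∀ s ∈ S, f s < n) (b : ℝ)
    (h : ∀ j < n, ((S.filter (fun s => f s = j)).card : ℝ) ≤ b) : (S.card : ℝ) ≤ n * b := by
  have h1 : S.card = ∑ j ∈ Finset.range n, (S.filter (fun s => f s = j)).card :=
    Finset.card_eq_sum_card_fiberwise (fun s hs => Finset.mem_coe.mpr (Finset.mem_range.mpr (hf s hs)))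
  rw [h1]
  push_cast
  calc ∑ j ∈ Finset.range n, ((S.filter (fun s => f s = j)).card : ℝ)
      ≤ ∑ j ∈ Finset.range n, b :=
        Finset.sum_le_sum (fun j hj => h j (Finset.mem_range.mp hj))
    _ = n * b := by rw [Finset.sum_const, Finset.card_range, nsmul_eq_mul]

/-- Count along a linear phase over a whole range. -/
lemma count_lin (R M : ℕ) (hM : 0 < M) (hR : 0 < R) (u : ℤ) (hu : IsCoprime u (M : ℤ))
    (c0 η : ℝ) (hη : 0 ≤ η) (θ : ℕ → ℝ) (I : ℕ) (S : Finset ℕ) (hSI : ∀ t ∈ S, t < I)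
    (hθ : ∀ t ∈ S, ∃ h : ℤ, h + c0 + u * t / M ≤ θ t ∧ θ t ≤ h + c0 + u * t / M + η) (A : ℤ) :
    ((S.filter (fun t => ⌊θ t * R⌋ % R = A)).card : ℝ) ≤
      ((I : ℝ) / M + 1) * (M * (1 / R + η) + 1) := by
  have hMR : (0 : ℝ) < M := by exact_mod_cast hM
  have hb : (0 : ℝ) ≤ M * (1 / R + η) + 1 := by positivity
  have h1 := card_fiberwise_le (S.filter (fun t => ⌊θ t * R⌋ % R = A)) (fun t => t / M) (I / M + 1)
    (fun t ht => by
      rw [Finset.mem_filter] at ht
      have := hSI t ht.1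
      have h2 : t / M ≤ I / M := Nat.div_le_div_right this.le
      show t / M < I / M + 1
      omega) (M * (1 / R + η) + 1)
    (fun j hj => by
      have h3 := fiber_lin R M hM hR u hu c0 η hη θ (S.filter (fun t => t / M = j))
        (by
          intro t ht t' ht' heq
          rw [Finset.mem_coe, Finset.mem_filter] at ht ht'
          simp only at heq
          rw [← Nat.mod_add_div t M, ← Nat.mod_add_div t' M, heq, ht.2, ht'.2])
        (fun t ht => hθ t (Finset.mem_of_mem_filter t ht)) A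
      rw [Finset.filter_filter] at h3 ⊢
      have e : (S.filter (fun t => ⌊θ t * R⌋ % R = A ∧ t / M = j)) =
          (S.filter (fun t => t / M = j ∧ ⌊θ t * R⌋ % R = A)) := by
        apply Finset.filter_congr
        intro t _
        exact and_comm
      rw [e]
      exact h3)
  refine h1.trans ?_
  apply mul_le_mul_of_nonneg_right _ hb
  push_cast
  have : ((I / M : ℕ) : ℝ) ≤ (I : ℝ) / M := Nat.cast_div_le
  linarith

/-- The number of bad multipliers. -/
lemma bad_count (Pn Q D : ℕ) (hP : 0 < Pn) :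
    (((Finset.range Q).filter (fun i => Pn / Nat.gcd (i + 1) Pn ≤ D)).card : ℝ) ≤
      (Q : ℝ) * D * D / Pn := by
  have hPR : (0 : ℝ) < Pn := by exact_mod_cast hP
  have hsub : (Finset.range Q).filter (fun i => Pn / Nat.gcd (i + 1) Pn ≤ D) ⊆
      (Finset.Icc 1 D).biUnion (fun d => (Finset.range Q).filter (fun i => Pn ∣ (i + 1) * d)) := by
    intro i hi
    rw [Finset.mem_filter] at hi
    rw [Finset.mem_biUnion]
    have hg : Nat.gcd (i + 1) Pn ∣ Pn := Nat.gcd_dvd_right _ _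
    have hg0 : 0 < Nat.gcd (i + 1) Pn := Nat.gcd_pos_of_pos_right _ hP
    refine ⟨Pn / Nat.gcd (i + 1) Pn, ?_, ?_⟩
    · rw [Finset.mem_Icc]
      exact ⟨Nat.div_pos (Nat.le_of_dvd hP hg) hg0, hi.2⟩
    · rw [Finset.mem_filter]
      refine ⟨hi.1, ?_⟩
      obtain ⟨c, hc⟩ := Nat.gcd_dvd_left (i + 1) Pn
      refine ⟨c, ?_⟩
      calc (i + 1) * (Pn / Nat.gcd (i + 1) Pn)
          = Nat.gcd (i + 1) Pn * c * (Pn / Nat.gcd (i + 1) Pn) := by rw [← hc]
        _ = (Nat.gcd (i + 1) Pn * (Pn / Nat.gcd (i + 1) Pn)) * c := by ring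
        _ = Pn * c := by rw [Nat.mul_div_cancel' hg]
  have h1 : ∀ d ∈ Finset.Icc 1 D,
      (((Finset.range Q).filter (fun i => Pn ∣ (i + 1) * d)).card : ℝ) ≤ (Q : ℝ) * D / Pn := by
    intro d hd
    rw [Finset.mem_Icc] at hd
    have h2 : ((Finset.range Q).filter (fun i => Pn ∣ (i + 1) * d)).card ≤
        (Finset.Icc 1 (Q * D / Pn)).card := by
      apply Finset.card_le_card_of_injOn (fun i => (i + 1) * d / Pn)
      · intro i hi
        rw [Finset.mem_coe, Finset.mem_filter, Finset.mem_range] at hi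
        rw [Finset.mem_coe, Finset.mem_Icc]
        constructor
        · exact Nat.div_pos (Nat.le_of_dvd (Nat.mul_pos (Nat.succ_pos i) (by omega)) hi.2) hP
        · apply Nat.div_le_div_right
          exact Nat.mul_le_mul (by omega) hd.2
      · intro i hi i' hi' heq
        rw [Finset.mem_coe, Finset.mem_filter, Finset.mem_range] at hi hi'
        simp only at heq
        have e1 := Nat.div_mul_cancel hi.2
        have e2 := Nat.div_mul_cancel hi'.2
        rw [heq, e2] at e1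
        have := Nat.eq_of_mul_eq_mul_right (by omega : 0 < d) e1
        omega
    rw [Nat.card_Icc] at h2
    have h3 : (((Finset.range Q).filter (fun i => Pn ∣ (i + 1) * d)).card : ℝ) ≤
        ((Q * D / Pn : ℕ) : ℝ) := by
      have : Q * D / Pn + 1 - 1 = Q * D / Pn := Nat.add_sub_cancel _ _
      rw [this] at h2
      exact_mod_cast h2
    refine h3.trans ?_
    have := @Nat.cast_div_le ℝ _ _ _ (Q * D) Pn
    push_cast at this
    exact this
  calc (((Finset.range Q).filter (fun i => Pn / Nat.gcd (i + 1) Pn ≤ D)).card : ℝ)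
      ≤ (((Finset.Icc 1 D).biUnion
          (fun d => (Finset.range Q).filter (fun i => Pn ∣ (i + 1) * d))).card : ℝ) := by
        exact_mod_cast Finset.card_le_card hsub
    _ ≤ ((∑ d ∈ Finset.Icc 1 D, ((Finset.range Q).filter (fun i => Pn ∣ (i + 1) * d)).card : ℕ) : ℝ) := by
        exact_mod_cast Finset.card_biUnion_le
    _ = ∑ d ∈ Finset.Icc 1 D, (((Finset.range Q).filter (fun i => Pn ∣ (i + 1) * d)).card : ℝ) := by
        push_cast; rfl
    _ ≤ ∑ d ∈ Finset.Icc 1 D, (Q : ℝ) * D / Pn := Finset.sum_le_sum h1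
    _ = (Q : ℝ) * D * D / Pn := by
        rw [Finset.sum_const, Nat.card_Icc, nsmul_eq_mul]
        have : D + 1 - 1 = D := by omega
        rw [this]
        ring

end Pool.Agent.H819R3.NR
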