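import Mathlib
import Pool.Agent.H819R3.NR2

set_option autoImplicit false

namespace Pool.Agent.H819R3.NR

lemma aux1 (x y z : ℝ) (h : x * y ≤ z) : x * 8 * y ≤ 8 * z := by
  have : x * 8 * y = 8 * (x * y) := by ring
  linarith

lemma aux2 (x y z Yk : ℝ) (hx : 0 ≤ x) (hy : 0 ≤ y) (h : x * y ≤ z) (hY : Yk ≤ 2)
    (hz : 1024 ≤ z) : x * Yk * y ≤ 4 * (z - 1) := by
  have h1 : x * Yk * y = (x * y) * Yk := by ring
  have h2 : (x * y) * Yk ≤ (x * y) * 2 := mul_le_mul_of_nonneg_left hY (mul_nonneg hx hy)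
  linarith

set_option maxHeartbeats 2000000 in
/-- Count inside one long block, multiplier `i + 1`. -/
lemma count_i (r k L c i S : ℕ) (hr : 2 ≤ r)
    (hS : ∀ s < S, s + c ≤ m r (k + 1) ∧ i * m r (k + 1) + s + c ≤ m r (k + 2)) (A : ℤ) :
    (((Finset.range S).filter (fun s =>
      ⌊(r : ℝ) ^ (i * m r (k + 1) + s) * (XX r)⁻¹ * ((r ^ L : ℕ) : ℝ)⌋ % ((r ^ L : ℕ) : ℤ) = A)).card : ℝ) ≤
      m r k * ((((S : ℝ) / m r k + 1) / (P r k / Nat.gcd (i + 1) (P r k) : ℕ) + 1) *
        ((P r k / Nat.gcd (i + 1) (P r k) : ℕ) * (1 / ((r ^ L : ℕ) : ℝ) + 12 / (r : ℝ) ^ c) + 1)) := by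
  have hPpos := P_pos r k hr
  have hr0 : (0 : ℝ) < r := by positivity
  have hr1 : (2 : ℝ) ≤ r := by exact_mod_cast hr
  set a : ℕ := m r k with ha
  have ha0 : 0 < a := by have := m_ge10 r k hr; omega
  set g : ℕ := Nat.gcd (i + 1) (P r k) with hg
  have hg0 : 0 < g := Nat.gcd_pos_of_pos_right _ hPpos
  have hgP : g ∣ P r k := Nat.gcd_dvd_right _ _
  set M : ℕ := P r k / g with hM
  have hM0 : 0 < M := Nat.div_pos (Nat.le_of_dvd hPpos hgP) hg0
  have hMR : (0 : ℝ) < M := by exact_mod_cast hM0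
  have haR : (0 : ℝ) < a := by exact_mod_cast ha0
  have hR0 : 0 < r ^ L := by positivity
  have hη : (0 : ℝ) ≤ 12 / (r : ℝ) ^ c := by positivity
  apply card_fiberwise_le _ (fun s => s % a) a (fun s _ => Nat.mod_lt s ha0)
  intro s' hs'
  -- transfer to `t`
  have hinj : (((Finset.range S).filter (fun s =>
      ⌊(r : ℝ) ^ (i * m r (k + 1) + s) * (XX r)⁻¹ * ((r ^ L : ℕ) : ℝ)⌋ % ((r ^ L : ℕ) : ℤ) = A)).filter
        (fun s => s % a = s')).card ≤
      (((Finset.range (S / a + 1)).filter (fun t => t * a + s' < S)).filter (fun t =>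
      ⌊(r : ℝ) ^ (i * m r (k + 1) + (t * a + s')) * (XX r)⁻¹ * ((r ^ L : ℕ) : ℝ)⌋ %
        ((r ^ L : ℕ) : ℤ) = A)).card := by
    apply Finset.card_le_card_of_injOn (fun s => s / a)
    · intro s hs
      rw [Finset.mem_coe, Finset.mem_filter, Finset.mem_filter, Finset.mem_range] at hs
      obtain ⟨⟨h1, h2⟩, h3⟩ := hs
      have e1 : s / a * a + s' = s := by rw [← h3, mul_comm]; exact Nat.div_add_mod s a
      rw [Finset.mem_coe, Finset.mem_filter, Finset.mem_filter, Finset.mem_range, e1]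
      refine ⟨⟨?_, h1⟩, h2⟩
      have : s / a ≤ S / a := Nat.div_le_div_right h1.le
      show s / a < S / a + 1
      omega
    · intro s hs s2 hs2 heq
      rw [Finset.mem_coe, Finset.mem_filter] at hs hs2
      simp only at heq
      rw [← Nat.div_add_mod s a, ← Nat.div_add_mod s2 a, hs.2, hs2.2, heq]
  refine (Nat.cast_le.mpr hinj).trans ?_
  -- the coprime multiplier
  obtain ⟨u0, hu0⟩ : g ∣ i + 1 := Nat.gcd_dvd_left _ _
  have hcop : Nat.Coprime u0 M := by
    have h1 := Nat.coprime_div_gcd_div_gcd (m := i + 1) (n := P r k) hg0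
    have h2 : (i + 1) / Nat.gcd (i + 1) (P r k) = u0 := by
      rw [← hg, hu0, Nat.mul_div_cancel_left _ hg0]
    rw [h2] at h1
    exact h1
  have hrM : Nat.Coprime r M := by
    have h1 := P_coprime r k hr
    exact Nat.Coprime.coprime_dvd_right (Nat.div_dvd_of_dvd hgP) h1
  have hu : IsCoprime ((u0 * r ^ (s' + e r k) : ℕ) : ℤ) (M : ℤ) := by
    apply Nat.isCoprime_iff_coprime.mpr
    exact Nat.Coprime.mul_left hcop (Nat.Coprime.pow_left _ hrM)
  have hPeq : (P r k : ℝ) = g * M := by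
    have : g * M = P r k := Nat.mul_div_cancel' hgP
    exact_mod_cast this.symm
  have hgR : (0 : ℝ) < g := by exact_mod_cast hg0
  have hu0R : ((i : ℝ) + 1) = g * u0 := by exact_mod_cast hu0
  have hRa : (1024 : ℝ) ≤ (r : ℝ) ^ (m r k) := by
    have := one_div_small r k hr
    rwa [one_div_le_one_div (by positivity) (by norm_num)] at this
  have hRb : (1024 : ℝ) ≤ (r : ℝ) ^ (m r (k + 1)) := by
    have := one_div_small r (k + 1) hr
    rwa [one_div_le_one_div (by positivity) (by norm_num)] at this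
  have hmain := count_lin (r ^ L) M hM0 hR0 ((u0 * r ^ (s' + e r k) : ℕ) : ℤ) hu
    (((u0 * r ^ (s' + e r k) : ℕ) : ℝ) / M +
      (i + 1) * ((r : ℝ) ^ s' * Y r k / ((r : ℝ) ^ (m r k) - 1)))
    (12 / (r : ℝ) ^ c) hη
    (fun t => (r : ℝ) ^ (i * m r (k + 1) + (t * a + s')) * (XX r)⁻¹) (S / a + 1)
    ((Finset.range (S / a + 1)).filter (fun t => t * a + s' < S))
    (fun t ht => by
      rw [Finset.mem_filter, Finset.mem_range] at ht
      exact ht.1)
    (fun t ht => by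
      rw [Finset.mem_filter, Finset.mem_range] at ht
      obtain ⟨h1, h2⟩ := hS (t * a + s') ht.2
      obtain ⟨z1, hz1⟩ := Y_rec r (k + 1) hr i (t * a + s')
      obtain ⟨z2, hz2⟩ := Y_rec r k hr t s'
      obtain ⟨hY1, hY2⟩ := Y_close r (k + 2) hr
      refine ⟨z1 + (i + 1) * z2, ?_⟩
      have hpow : (0 : ℝ) < (r : ℝ) ^ (i * m r (k + 1) + (t * a + s')) := by positivity
      -- main term
      have hmt : ((i : ℝ) + 1) * ((t + 1) * ((r : ℝ) ^ s' * Y r k)) =
          ((u0 * r ^ (s' + e r k) : ℕ) : ℝ) / M + ((u0 * r ^ (s' + e r k) : ℕ) : ℝ) * t / M := by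
        rw [Y_eq, hPeq, hu0R]
        push_cast
        rw [pow_add]
        field_simp
        ring
      set small : ℝ := (r : ℝ) ^ (t * a + s') * Y r (k + 1) / ((r : ℝ) ^ (m r (k + 1)) - 1) with hsmall
      have hval : (r : ℝ) ^ (i * m r (k + 1) + (t * a + s')) * Y r (k + 2) =
          ((z1 + (i + 1) * z2 : ℤ) : ℝ) + (((u0 * r ^ (s' + e r k) : ℕ) : ℝ) / M +
          (i + 1) * ((r : ℝ) ^ s' * Y r k / ((r : ℝ) ^ (m r k) - 1))) +
          ((u0 * r ^ (s' + e r k) : ℕ) : ℝ) * t / M + small := by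
        have e1 : (r : ℝ) ^ (i * m r (k + 1) + (t * a + s')) * Y r (k + 2) =
          z1 + (i + 1) * ((r : ℝ) ^ (t * a + s') * Y r (k + 1)) + small := hz1
        have e2 : (r : ℝ) ^ (t * a + s') * Y r (k + 1) = z2 + (t + 1) * ((r : ℝ) ^ s' * Y r k) +
          (r : ℝ) ^ s' * Y r k / ((r : ℝ) ^ (m r k) - 1) := hz2
        rw [e1, e2]
        generalize (r : ℝ) ^ s' * Y r k / ((r : ℝ) ^ (m r k) - 1) = w1
        generalize ((u0 * r ^ (s' + e r k) : ℕ) : ℝ) / M = w2 at hmt ⊢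
        generalize ((u0 * r ^ (s' + e r k) : ℕ) : ℝ) * t / M = w3 at hmt ⊢
        push_cast
        linear_combination hmt
      have hs1 : 0 ≤ small := by
        rw [hsmall]
        apply div_nonneg _ (by linarith)
        have := Y_pos r (k + 1) hr
        positivity
      have hs2 : small ≤ 4 / (r : ℝ) ^ c := by
        rw [hsmall]
        have hYle := Y_le r (k + 1) hr
        have hb1 : (r : ℝ) ^ (m r (k + 1)) / 2 ≤ (r : ℝ) ^ (m r (k + 1)) - 1 := by linarith
        have hb2 : (r : ℝ) ^ (t * a + s') * (r : ℝ) ^ c ≤ (r : ℝ) ^ (m r (k + 1)) := by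
          rw [← pow_add]
          exact pow_le_pow_right₀ (by linarith) h1
        rw [div_le_div_iff₀ (by linarith) (by positivity)]
        exact aux2 _ _ _ _ (by positivity) (by positivity) hb2 hYle hRb
      have hs3 : (r : ℝ) ^ (i * m r (k + 1) + (t * a + s')) * (8 / (r : ℝ) ^ (m r (k + 2))) ≤
          8 / (r : ℝ) ^ c := by
        rw [← mul_div_assoc, div_le_div_iff₀ (by positivity) (by positivity)]
        have h3 : (r : ℝ) ^ (i * m r (k + 1) + (t * a + s')) * (r : ℝ) ^ c ≤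
            (r : ℝ) ^ (m r (k + 2)) := by
          rw [← pow_add]
          apply pow_le_pow_right₀ (by linarith)
          omega
        exact aux1 _ _ _ h3
      have h12 : (12 : ℝ) / (r : ℝ) ^ c = 4 / (r : ℝ) ^ c + 8 / (r : ℝ) ^ c := by ring
      have hlow : (r : ℝ) ^ (i * m r (k + 1) + (t * a + s')) * Y r (k + 2) ≤
          (r : ℝ) ^ (i * m r (k + 1) + (t * a + s')) * (XX r)⁻¹ :=
        mul_le_mul_of_nonneg_left hY1 hpow.le
      have hup : (r : ℝ) ^ (i * m r (k + 1) + (t * a + s')) * (XX r)⁻¹ ≤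
          (r : ℝ) ^ (i * m r (k + 1) + (t * a + s')) * Y r (k + 2) +
          (r : ℝ) ^ (i * m r (k + 1) + (t * a + s')) * (8 / (r : ℝ) ^ (m r (k + 2))) := by
        rw [← mul_add]
        exact mul_le_mul_of_nonneg_left hY2 hpow.le
      rw [hval] at hlow hup
      push_cast at hlow hup ⊢
      constructor
      · linarith
      · linarith) A
  refine hmain.trans ?_
  apply mul_le_mul_of_nonneg_right _ (by positivity)
  have h5 : (((S / a + 1 : ℕ)) : ℝ) ≤ (S : ℝ) / a + 1 := by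
    push_cast
    have : ((S / a : ℕ) : ℝ) ≤ (S : ℝ) / a := Nat.cast_div_le
    linarith
  have h6 : (((S / a + 1 : ℕ)) : ℝ) / M ≤ ((S : ℝ) / a + 1) / M :=
    div_le_div_of_nonneg_right h5 hMR.le
  linarith

end Pool.Agent.H819R3.NR
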