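import Mathlib
import Pool.Agent.H819R3.NR3

set_option autoImplicit false

namespace Pool.Agent.H819R3.NR

attribute [local irreducible] P e m

lemma sum_min (b N Q : ℕ) : ∑ i ∈ Finset.range Q, min b (N - i * b) = min N (Q * b) := by
  induction Q with
  | zero => simp
  | succ Q ih =>
    rw [Finset.sum_range_succ, ih]
    have e : (Q + 1) * b = Q * b + b := by ring
    rw [e]
    omega

set_option maxHeartbeats 2000000 in
/-- Count inside one long block, good multiplier. -/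
lemma count_block_good (r k L c D i N : ℕ) (hr : 2 ≤ r) (hD : 1 ≤ D)
    (hM : D ≤ P r k / Nat.gcd (i + 1) (P r k)) (h2 : N + c ≤ m r (k + 2)) (A : ℤ) :
    ((((Finset.range N).filter (fun n =>
      ⌊(r : ℝ) ^ n * (XX r)⁻¹ * ((r ^ L : ℕ) : ℝ)⌋ % ((r ^ L : ℕ) : ℤ) = A)).filter
        (fun n => n / m r (k + 1) = i)).card : ℝ) ≤
      (min (m r (k + 1)) (N - i * m r (k + 1)) : ℕ) *
          (1 / ((r ^ L : ℕ) : ℝ) + 12 / (r : ℝ) ^ c + 1 / D) +
        (2 * (m r k * P r k) * (1 / ((r ^ L : ℕ) : ℝ) + 12 / (r : ℝ) ^ c + 1 / D) + c) := by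
  have hPpos := P_pos r k hr
  have hb0 : 0 < m r (k + 1) := by have := m_ge10 r (k + 1) hr; omega
  have ha0 : 0 < m r k := by have := m_ge10 r k hr; omega
  set b : ℕ := m r (k + 1) with hb
  set F : ℕ := min b (N - i * b) with hF
  have hr0 : (0 : ℝ) < r := by positivity
  have hcard : (((Finset.range N).filter (fun n =>
      ⌊(r : ℝ) ^ n * (XX r)⁻¹ * ((r ^ L : ℕ) : ℝ)⌋ % ((r ^ L : ℕ) : ℤ) = A)).filter
        (fun n => n / b = i)).card ≤
      ((Finset.range (F - c)).filter (fun s =>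
      ⌊(r : ℝ) ^ (i * b + s) * (XX r)⁻¹ * ((r ^ L : ℕ) : ℝ)⌋ % ((r ^ L : ℕ) : ℤ) = A)).card + c := by
    have h3 : (((Finset.range N).filter (fun n =>
      ⌊(r : ℝ) ^ n * (XX r)⁻¹ * ((r ^ L : ℕ) : ℝ)⌋ % ((r ^ L : ℕ) : ℤ) = A)).filter
        (fun n => n / b = i)).card ≤
      (((Finset.range (F - c)).filter (fun s =>
      ⌊(r : ℝ) ^ (i * b + s) * (XX r)⁻¹ * ((r ^ L : ℕ) : ℝ)⌋ % ((r ^ L : ℕ) : ℤ) = A)) ∪
        Finset.Ico (F - c) F).card := by
      apply Finset.card_le_card_of_injOn (fun n => n % b)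
      · intro n hn
        rw [Finset.mem_coe, Finset.mem_filter, Finset.mem_filter, Finset.mem_range] at hn
        obtain ⟨⟨h4, h5⟩, h6⟩ := hn
        have e1 : i * b + n % b = n := by rw [← h6, mul_comm]; exact Nat.div_add_mod n b
        have hlt := Nat.mod_lt n hb0
        have hlF : n % b < F := by rw [hF]; omega
        rw [Finset.mem_coe, Finset.mem_union, Finset.mem_filter, Finset.mem_range, Finset.mem_Ico,
          e1]
        by_cases h7 : n % b < F - c
        · left; exact ⟨h7, h5⟩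
        · right; exact ⟨not_lt.mp h7, hlF⟩
      · intro s hs s2 hs2 heq
        rw [Finset.mem_coe, Finset.mem_filter] at hs hs2
        simp only at heq
        rw [← Nat.div_add_mod s b, ← Nat.div_add_mod s2 b, hs.2, hs2.2, heq]
    refine h3.trans ((Finset.card_union_le _ _).trans ?_)
    rw [Nat.card_Ico]
    omega
  have hmain := count_i r k L c i (F - c) hr (fun s hs => by
    have h8 : F ≤ b := min_le_left _ _
    have h9 : F ≤ N - i * b := min_le_right _ _
    refine ⟨by omega, ?_⟩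
    rw [← hb]
    omega) A
  set M : ℕ := P r k / Nat.gcd (i + 1) (P r k) with hMdef
  have hM0 : 0 < M := by omega
  have hMP : M ≤ P r k := Nat.div_le_self _ _
  have hMR : (0 : ℝ) < M := by exact_mod_cast hM0
  have haR : (0 : ℝ) < m r k := by exact_mod_cast ha0
  have hDR : (0 : ℝ) < D := by exact_mod_cast hD
  have hRR : (0 : ℝ) < ((r ^ L : ℕ) : ℝ) := by push_cast; positivity
  have hinv : (1 : ℝ) / M ≤ 1 / D := by
    apply one_div_le_one_div_of_le hDR
    exact_mod_cast hM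
  have hη : (0 : ℝ) ≤ 1 / ((r ^ L : ℕ) : ℝ) + 12 / (r : ℝ) ^ c := by positivity
  set η : ℝ := 1 / ((r ^ L : ℕ) : ℝ) + 12 / (r : ℝ) ^ c with hηdef
  have hFc : ((F - c : ℕ) : ℝ) ≤ F := by exact_mod_cast Nat.sub_le F c
  have hMPR : (M : ℝ) ≤ P r k := by exact_mod_cast hMP
  have hP1 : (1 : ℝ) ≤ P r k := by exact_mod_cast hPpos
  have hcardR := (Nat.cast_le (α := ℝ)).mpr hcard
  rw [Nat.cast_add] at hcardR
  refine hcardR.trans ?_
  have hstep : (m r k : ℝ) * (((((F - c : ℕ) : ℝ) / m r k + 1) / M + 1) * (M * η + 1)) =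
      (((F - c : ℕ) : ℝ) + m r k + m r k * M) * (η + 1 / M) := by
    field_simp
  rw [hstep] at hmain
  have hfin : (((F - c : ℕ) : ℝ) + m r k + m r k * M) * (η + 1 / M) ≤
      ((F : ℝ) + 2 * (m r k * P r k)) * (η + 1 / D) := by
    apply mul_le_mul _ (by linarith) (by positivity) (by positivity)
    have h10 : (m r k : ℝ) * M ≤ m r k * P r k := mul_le_mul_of_nonneg_left hMPR haR.le
    have h11 : (m r k : ℝ) ≤ m r k * P r k := le_mul_of_one_le_right haR.le hP1
    linarith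
  have hfin2 : ((F : ℝ) + 2 * (m r k * P r k)) * (η + 1 / D) =
      F * (η + 1 / D) + 2 * (m r k * P r k) * (η + 1 / D) := by ring
  linarith

set_option maxHeartbeats 2000000 in
/-- The total count. -/
lemma total_count (r k L c D N : ℕ) (hr : 2 ≤ r) (hD : 1 ≤ D) (hcN : c ≤ N) (hN : 0 < N)
    (h1 : m r (k + 1) ≤ N + c) (h2 : N + c ≤ m r (k + 2)) (A : ℤ) :
    (((Finset.range N).filter (fun n =>
      ⌊(r : ℝ) ^ n * (XX r)⁻¹ * ((r ^ L : ℕ) : ℝ)⌋ % ((r ^ L : ℕ) : ℤ) = A)).card : ℝ) ≤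
      N * (1 / ((r ^ L : ℕ) : ℝ) + 12 / (r : ℝ) ^ c + 1 / D + 3 * (28 + c + D * D) / (k + 1)) := by
  classical
  have hPpos := P_pos r k hr
  have hb0 : 0 < m r (k + 1) := by have := m_ge10 r (k + 1) hr; omega
  have ha0 : 0 < m r k := by have := m_ge10 r k hr; omega
  have hr0 : (0 : ℝ) < r := by positivity
  have hr1 : (2 : ℝ) ≤ r := by exact_mod_cast hr
  set b : ℕ := m r (k + 1) with hb
  set ρ : ℝ := 1 / ((r ^ L : ℕ) : ℝ) + 12 / (r : ℝ) ^ c + 1 / D with hρ
  have hDR : (1 : ℝ) ≤ D := by exact_mod_cast hD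
  have hρ0 : 0 ≤ ρ := by rw [hρ]; positivity
  have hρ14 : ρ ≤ 14 := by
    have e1 : 1 / ((r ^ L : ℕ) : ℝ) ≤ 1 := by
      rw [div_le_one (by push_cast; positivity)]
      push_cast
      exact one_le_pow₀ (by linarith)
    have e2 : 12 / (r : ℝ) ^ c ≤ 12 := by
      rw [div_le_iff₀ (by positivity)]
      have : (1 : ℝ) ≤ (r : ℝ) ^ c := one_le_pow₀ (by linarith)
      linarith
    have e3 : 1 / (D : ℝ) ≤ 1 := by
      rw [div_le_one (by linarith)]
      exact hDR
    rw [hρ]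
    linarith
  set Q : ℕ := N / b + 1 with hQ
  set S : Finset ℕ := (Finset.range N).filter (fun n =>
      ⌊(r : ℝ) ^ n * (XX r)⁻¹ * ((r ^ L : ℕ) : ℝ)⌋ % ((r ^ L : ℕ) : ℤ) = A) with hS
  have hfib : S.card = ∑ i ∈ Finset.range Q, (S.filter (fun n => n / b = i)).card :=
    Finset.card_eq_sum_card_fiberwise (fun n hn => by
      rw [Finset.mem_coe, hS, Finset.mem_filter, Finset.mem_range] at hn
      rw [Finset.mem_coe, Finset.mem_range]
      have := Nat.div_le_div_right (c := b) hn.1.le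
      show n / b < Q
      omega)
  have hbad : ∀ i, ((S.filter (fun n => n / b = i)).card : ℝ) ≤ b := by
    intro i
    have : (S.filter (fun n => n / b = i)).card ≤ (Finset.range b).card := by
      apply Finset.card_le_card_of_injOn (fun n => n % b)
      · intro n _
        rw [Finset.mem_coe, Finset.mem_range]
        exact Nat.mod_lt n hb0
      · intro s hs s2 hs2 heq
        rw [Finset.mem_coe, Finset.mem_filter] at hs hs2
        simp only at heq
        rw [← Nat.div_add_mod s b, ← Nat.div_add_mod s2 b, hs.2, hs2.2, heq]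
    rw [Finset.card_range] at this
    exact_mod_cast this
  have hterm : ∀ i ∈ Finset.range Q, ((S.filter (fun n => n / b = i)).card : ℝ) ≤
      (min b (N - i * b) : ℕ) * ρ + (2 * (m r k * P r k) * ρ + c) +
        (if P r k / Nat.gcd (i + 1) (P r k) ≤ D then (b : ℝ) else 0) := by
    intro i _
    by_cases hi : P r k / Nat.gcd (i + 1) (P r k) ≤ D
    · rw [if_pos hi]
      have := hbad i
      have h0 : (0 : ℝ) ≤ (min b (N - i * b) : ℕ) * ρ + (2 * (m r k * P r k) * ρ + c) := by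
        positivity
      linarith
    · rw [if_neg hi]
      have := count_block_good r k L c D i N hr hD (by omega) h2 A
      rw [add_zero]
      exact this
  have hsum : (S.card : ℝ) ≤ N * ρ + Q * (2 * (m r k * P r k) * ρ + c) +
      ((Q : ℝ) * D * D / P r k) * b := by
    rw [hfib]
    push_cast
    refine (Finset.sum_le_sum hterm).trans ?_
    rw [Finset.sum_add_distrib, Finset.sum_add_distrib, Finset.sum_const, Finset.card_range,
      nsmul_eq_mul, ← Finset.sum_mul, ← Finset.sum_filter, Finset.sum_const, nsmul_eq_mul]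
    have e1 : (∑ i ∈ Finset.range Q, ((min b (N - i * b) : ℕ) : ℝ)) ≤ N := by
      have := sum_min b N Q
      have h3 : (∑ i ∈ Finset.range Q, ((min b (N - i * b) : ℕ) : ℝ)) = ((min N (Q * b) : ℕ) : ℝ) := by
        rw [← this]; push_cast; rfl
      rw [h3]
      exact_mod_cast min_le_left _ _
    have e2 := bad_count (P r k) Q D hPpos
    have e3 := mul_le_mul_of_nonneg_right e1 hρ0
    have e4 := mul_le_mul_of_nonneg_right e2 (Nat.cast_nonneg (α := ℝ) b)
    linarith
  refine hsum.trans ?_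
  -- numerics
  have hQb : (Q : ℝ) * b ≤ 3 * N := by
    have : Q * b ≤ 3 * N := by
      have h4 : N / b * b ≤ N := Nat.div_mul_le_self N b
      have : Q * b = N / b * b + b := by rw [hQ]; ring
      omega
    exact_mod_cast this
  have hnext : ((k : ℝ) + 1) * (m r k * P r k) ≤ b := by
    have h5 := m_next_ge r k hr
    have h6 : (k + 1) * (m r k * P r k) ≤ b := by
      refine le_trans ?_ h5
      exact Nat.mul_le_mul (by omega) (le_refl _)
    exact_mod_cast h6
  have haP : (1 : ℝ) ≤ m r k * P r k := by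
    have : 1 ≤ m r k * P r k := Nat.mul_pos ha0 hPpos
    exact_mod_cast this
  have hPk : ((k : ℝ) + 1) ≤ P r k := by exact_mod_cast P_ge_k r k hr
  have hk1 : (0 : ℝ) < (k : ℝ) + 1 := by positivity
  have hPR : (0 : ℝ) < P r k := by exact_mod_cast hPpos
  have hQ0 : (0 : ℝ) ≤ Q := Nat.cast_nonneg _
  have hNR : (0 : ℝ) < N := by exact_mod_cast hN
  -- first piece
  have g1 : (Q : ℝ) * (2 * (m r k * P r k) * ρ + c) ≤ 3 * N * ((28 + c) / (k + 1)) := by
    have f1 : 2 * ((m r k : ℝ) * P r k) * ρ + c ≤ (28 + c) * (m r k * P r k) := by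
      have q1 : 2 * ((m r k : ℝ) * P r k) * ρ ≤ 28 * (m r k * P r k) := by
        have := mul_le_mul_of_nonneg_left hρ14 (by positivity : (0 : ℝ) ≤ 2 * (m r k * P r k))
        linarith
      have q2 : (c : ℝ) ≤ c * (m r k * P r k) := le_mul_of_one_le_right (Nat.cast_nonneg _) haP
      linarith
    have f2 : (m r k : ℝ) * P r k ≤ b / (k + 1) := by
      rw [le_div_iff₀ hk1]; linarith
    have f3 : (28 + (c : ℝ)) * (m r k * P r k) ≤ (28 + c) * (b / (k + 1)) :=
      mul_le_mul_of_nonneg_left f2 (by positivity)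
    calc (Q : ℝ) * (2 * (m r k * P r k) * ρ + c) ≤ Q * ((28 + c) * (b / (k + 1))) :=
          mul_le_mul_of_nonneg_left (f1.trans f3) hQ0
      _ = (Q * b) * ((28 + c) / (k + 1)) := by ring
      _ ≤ 3 * N * ((28 + c) / (k + 1)) := mul_le_mul_of_nonneg_right hQb (by positivity)
  have g2 : ((Q : ℝ) * D * D / P r k) * b ≤ 3 * N * ((D * D) / (k + 1)) := by
    have f1 : ((D : ℝ) * D) / P r k ≤ (D * D) / (k + 1) :=
      div_le_div_of_nonneg_left (by positivity) hk1 hPk
    calc ((Q : ℝ) * D * D / P r k) * b = (Q * b) * ((D * D) / P r k) := by ring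
      _ ≤ (3 * N) * ((D * D) / P r k) := mul_le_mul_of_nonneg_right hQb (by positivity)
      _ ≤ _ := mul_le_mul_of_nonneg_left f1 (by positivity)
  have e5 : (N : ℝ) * (ρ + 3 * (28 + c + D * D) / (k + 1)) =
      N * ρ + 3 * N * ((28 + c) / (k + 1)) + 3 * N * ((D * D) / (k + 1)) := by
    ring
  rw [e5]
  linarith

lemma exists_stage (r c J N : ℕ) (hr : 2 ≤ r) (h : m r J ≤ N + c) :
    ∃ j, J ≤ j ∧ m r j ≤ N + c ∧ N + c < m r (j + 1) := by
  have hex : ∃ j, N + c < m r (j + 1) := ⟨N + c, by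
    have := (m_mono r hr).id_le (N + c + 1)
    simp only [id_eq] at this
    omega⟩
  classical
  let j := Nat.find hex
  have hj : N + c < m r (j + 1) := Nat.find_spec hex
  have hJ : J ≤ j := by
    by_contra hc
    have : m r (j + 1) ≤ m r J := (m_mono r hr).monotone (by omega)
    omega
  refine ⟨j, hJ, ?_, hj⟩
  rcases Nat.eq_zero_or_pos j with h0 | h0
  · rw [h0]
    have : m r 0 ≤ m r J := (m_mono r hr).monotone (Nat.zero_le _)
    omega
  · have := Nat.find_min hex (m := j - 1) (by omega)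
    have e : j - 1 + 1 = j := by omega
    rw [e] at this
    omega

/-- Uniform upper bound for all block frequencies. -/
lemma freq_upper (r L : ℕ) (hr : 2 ≤ r) (ε : ℝ) (hε : 0 < ε) : ∃ N0 : ℕ, ∀ N : ℕ, N0 ≤ N → ∀ A : ℤ,
    (((Finset.range N).filter (fun n =>
      ⌊(r : ℝ) ^ n * (XX r)⁻¹ * ((r ^ L : ℕ) : ℝ)⌋ % ((r ^ L : ℕ) : ℤ) = A)).card : ℝ) / N ≤
      1 / ((r ^ L : ℕ) : ℝ) + ε := by
  have hr0 : (0 : ℝ) < r := by positivity
  have hr1 : (2 : ℝ) ≤ r := by exact_mod_cast hr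
  obtain ⟨c, hc⟩ : ∃ c : ℕ, 12 / (r : ℝ) ^ c < ε / 3 := by
    obtain ⟨c, hc⟩ := exists_pow_lt_of_lt_one (show 0 < ε / 36 by linarith)
      (show (1 / 2 : ℝ) < 1 by norm_num)
    refine ⟨c, ?_⟩
    have h1 : 12 / (r : ℝ) ^ c ≤ 12 / 2 ^ c := by
      apply div_le_div_of_nonneg_left (by norm_num) (by positivity)
      exact pow_le_pow_left₀ (by norm_num) hr1 _
    have h2 : (12 : ℝ) / 2 ^ c = 12 * (1 / 2) ^ c := by
      rw [one_div, inv_pow]; ring
    rw [h2] at h1
    linarith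
  obtain ⟨D0, hD0⟩ := exists_nat_one_div_lt (show 0 < ε / 3 by linarith)
  obtain ⟨K, hK⟩ := exists_nat_one_div_lt
    (show 0 < ε / 3 / (3 * (28 + c + (D0 + 1) * (D0 + 1))) by positivity)
  refine ⟨m r (K + 1) + c + 1, fun N hN A => ?_⟩
  obtain ⟨j, hj1, hj2, hj3⟩ := exists_stage r c (K + 1) N hr (by omega)
  obtain ⟨k, rfl⟩ : ∃ k, j = k + 1 := ⟨j - 1, by omega⟩
  have hmain := total_count r k L c (D0 + 1) N hr (by omega) (by omega) (by omega) hj2 hj3.le A
  have hNR : (0 : ℝ) < N := by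
    have : 0 < N := by omega
    exact_mod_cast this
  rw [div_le_iff₀ hNR]
  refine hmain.trans ?_
  rw [mul_comm]
  apply mul_le_mul_of_nonneg_right _ hNR.le
  push_cast
  have h3 : 3 * (28 + (c : ℝ) + (D0 + 1) * (D0 + 1)) / (k + 1) < ε / 3 := by
    have hkK : (1 : ℝ) / (k + 1) ≤ 1 / (K + 1) := by
      apply one_div_le_one_div_of_le (by positivity)
      have : K ≤ k := by omega
      have : (K : ℝ) ≤ k := by exact_mod_cast this
      linarith
    have h4 := lt_of_le_of_lt hkK hK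
    rw [lt_div_iff₀ (by positivity)] at h4
    calc 3 * (28 + (c : ℝ) + (D0 + 1) * (D0 + 1)) / (k + 1)
        = 1 / (k + 1) * (3 * (28 + c + (D0 + 1) * (D0 + 1))) := by ring
      _ < ε / 3 := h4
  linarith

/-! ### The digits of `XX` -/

lemma digit_max (r k p : ℕ) (hr : 2 ≤ r) (h1 : e r k < p) (h2 : p + 1 ≤ m r k) :
    ⌊XX r * (r : ℝ) ^ p⌋ % (r : ℤ) = (r : ℤ) - 1 := by
  obtain ⟨hx1, hx2⟩ := XX_mem r k hr
  have hx3 := XX_lt r k hr
  have hr0 : (0 : ℝ) < r := by positivity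
  have hr1 : (2 : ℝ) ≤ r := by exact_mod_cast hr
  obtain ⟨c, rfl⟩ : ∃ c, p = e r k + (c + 1) := ⟨p - e r k - 1, by omega⟩
  have hE : X r k * (r : ℝ) ^ (e r k + (c + 1)) = ((P r k * r ^ c * r : ℤ) : ℝ) := by
    unfold X
    push_cast
    rw [pow_add, pow_succ (r : ℝ) c]
    have h2' : (r : ℝ) ^ (e r k) ≠ 0 := by positivity
    field_simp
  have hpp : (0 : ℝ) < (r : ℝ) ^ (e r k + (c + 1)) := by positivity
  have hfl : ⌊XX r * (r : ℝ) ^ (e r k + (c + 1))⌋ = (P r k * r ^ c * r - 1 : ℤ) := by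
    rw [Int.floor_eq_iff]
    constructor
    · push_cast at hE ⊢
      rw [← hE]
      have h3 := mul_le_mul_of_nonneg_right hx1 hpp.le
      have h4 : 2 / (r : ℝ) ^ (m r k) * (r : ℝ) ^ (e r k + (c + 1)) ≤ 1 := by
        rw [div_mul_eq_mul_div, div_le_one (by positivity)]
        calc 2 * (r : ℝ) ^ (e r k + (c + 1)) ≤ r * (r : ℝ) ^ (e r k + (c + 1)) := by
              gcongr
          _ = (r : ℝ) ^ (e r k + (c + 1) + 1) := by ring
          _ ≤ (r : ℝ) ^ (m r k) := pow_le_pow_right₀ (by linarith) h2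
      linarith
    · push_cast at hE ⊢
      rw [← hE]
      have h3 := mul_lt_mul_of_pos_right hx3 hpp
      linarith
  rw [hfl]
  have e1 : ((P r k : ℤ) * r ^ c * r - 1) = (r - 1) + r * (P r k * r ^ c - 1) := by ring
  rw [e1, Int.add_mul_emod_self_left]
  apply Int.emod_eq_of_lt
  · have : (2 : ℤ) ≤ r := by exact_mod_cast hr
    linarith
  · linarith

/-- number of digits different from `r - 1` among the first `N` digits -/
noncomputable def cnt (r N : ℕ) : ℕ :=
  ((Finset.range N).filter (fun n : ℕ => ⌊XX r * (r : ℝ) ^ (n + 1)⌋ % (r : ℤ) ≠ (r : ℤ) - 1)).card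

lemma cnt_le (r k N : ℕ) (hr : 2 ≤ r) (h2 : N + 3 ≤ m r (k + 1)) : cnt r N ≤ 2 * e r k + 4 := by
  unfold cnt
  have hsub : (Finset.range N).filter (fun n : ℕ =>
      ⌊XX r * (r : ℝ) ^ (n + 1)⌋ % (r : ℤ) ≠ (r : ℤ) - 1) ⊆
      Finset.range (e r k) ∪ Finset.Ico (m r k - 3) (m r k + e r k) := by
    intro n hn
    rw [Finset.mem_filter, Finset.mem_range] at hn
    rw [Finset.mem_union, Finset.mem_range, Finset.mem_Ico]
    by_contra hcon
    push Not at hcon
    obtain ⟨h3, h4⟩ := hcon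
    by_cases h5 : n + 1 + 1 ≤ m r k
    · exact hn.2 (digit_max r k (n + 1) hr (by omega) h5)
    · have h6 : m r k + e r k ≤ n := h4 (by omega)
      exact hn.2 (digit_max r (k + 1) (n + 1) hr (by rw [e_succ]; omega) (by omega))
  refine (Finset.card_le_card hsub).trans ((Finset.card_union_le _ _).trans ?_)
  rw [Finset.card_range, Nat.card_Ico]
  omega

lemma cnt_ratio (r J N : ℕ) (hr : 2 ≤ r) (h : m r J ≤ N + 3) (hN : 0 < N) :
    (cnt r N : ℝ) / N ≤ 2 / (J + 1) := by
  obtain ⟨j, hJ, h1, h2⟩ := exists_stage r 3 J N hr h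
  have h3 := cnt_le r j N hr (by omega)
  have h4 := m_ge r j hr
  have h5 : (j + 1) * (2 * e r j + 4) ≤ 2 * N := by
    have : (j + 1) * (P r j + e r j + 10) = (j + 1) * (e r j + 5) + (j + 1) * (P r j + 5) := by ring
    have h7 : 5 ≤ (j + 1) * (P r j + 5) := by
      have := P_pos r j hr
      nlinarith
    have h8 : (j + 1) * (2 * e r j + 4) ≤ 2 * ((j + 1) * (e r j + 5)) := by nlinarith
    omega
  have h6 : (cnt r N) * (J + 1) ≤ 2 * N := by
    calc cnt r N * (J + 1) ≤ (2 * e r j + 4) * (j + 1) := Nat.mul_le_mul h3 (by omega)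
      _ ≤ 2 * N := by rw [mul_comm]; exact h5
  rw [div_le_div_iff₀ (by positivity) (by positivity)]
  have : ((cnt r N * (J + 1) : ℕ) : ℝ) ≤ ((2 * N : ℕ) : ℝ) := by exact_mod_cast h6
  push_cast at this
  linarith

end Pool.Agent.H819R3.NR
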