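import Mathlib

set_option autoImplicit false

namespace Pool.Agent.H819R3.Recip

/-- The data of a stage: the cofactor `w`, the exponent `T`, the digit length `N`. -/
structure St where
  w : ℕ
  T : ℕ
  N : ℕ

def tt (j : ℕ) (s : St) : ℕ := (j + 1) * (2 * s.N + 4) + 3 ^ (j + 1) + s.N + j + 10

def mm (j : ℕ) (s : St) : ℕ := 1 + 3 * s.T * tt j s

def next (j : ℕ) (s : St) : St :=
  ⟨s.w * ((2 ^ (mm j s) + 1) / 3), s.T * mm j s, s.N + mm j s⟩

def st : ℕ → St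
  | 0 => ⟨1, 2, 0⟩
  | (j + 1) => next j (st j)

def w (j : ℕ) : ℕ := (st j).w
def T (j : ℕ) : ℕ := (st j).T
def NN (j : ℕ) : ℕ := (st j).N
def m (j : ℕ) : ℕ := mm j (st j)

lemma w_succ (j : ℕ) : w (j + 1) = w j * ((2 ^ (m j) + 1) / 3) := rfl
lemma T_succ (j : ℕ) : T (j + 1) = T j * m j := rfl
lemma N_succ (j : ℕ) : NN (j + 1) = NN j + m j := rfl
lemma m_eq (j : ℕ) :
    m j = 1 + 3 * T j * ((j + 1) * (2 * NN j + 4) + 3 ^ (j + 1) + NN j + j + 10) := rfl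

lemma T_even (j : ℕ) : T j % 2 = 0 := by
  induction j with
  | zero => rfl
  | succ j ih => rw [T_succ, Nat.mul_mod, ih]; simp

lemma m_mod6 (j : ℕ) : m j % 6 = 1 := by
  have h := T_even j
  rw [m_eq]
  obtain ⟨c, hc⟩ : ∃ c, T j = 2 * c := ⟨T j / 2, by omega⟩
  rw [hc]
  have : 1 + 3 * (2 * c) * ((j + 1) * (2 * NN j + 4) + 3 ^ (j + 1) + NN j + j + 10)
      = 1 + 6 * (c * ((j + 1) * (2 * NN j + 4) + 3 ^ (j + 1) + NN j + j + 10)) := by ring
  rw [this]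
  omega

lemma T_pos (j : ℕ) : 2 ≤ T j := by
  induction j with
  | zero => exact le_refl 2
  | succ j ih =>
    rw [T_succ]
    have : 1 ≤ m j := by have := m_mod6 j; omega
    nlinarith

lemma T_mod3 (j : ℕ) : T j % 3 ≠ 0 := by
  induction j with
  | zero => decide
  | succ j ih =>
    rw [T_succ, Nat.mul_mod]
    have h := m_mod6 j
    have h3 : m j % 3 = 1 := by omega
    rw [h3]
    omega

lemma two_pow_m_mod9 (j : ℕ) : 2 ^ (m j) % 9 = 2 := by
  have h := m_mod6 j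
  obtain ⟨c, hc⟩ : ∃ c, m j = 6 * c + 1 := ⟨m j / 6, by omega⟩
  rw [hc, pow_add, pow_mul, Nat.mul_mod, Nat.pow_mod]
  norm_num

lemma three_dvd (j : ℕ) : 3 * ((2 ^ (m j) + 1) / 3) = 2 ^ (m j) + 1 := by
  have h := two_pow_m_mod9 j
  omega

lemma cof_mod3 (j : ℕ) : ((2 ^ (m j) + 1) / 3) % 3 = 1 := by
  have h := two_pow_m_mod9 j
  omega

lemma w_mod3 (j : ℕ) : w j % 3 = 1 := by
  induction j with
  | zero => rfl
  | succ j ih => rw [w_succ, Nat.mul_mod, ih, cof_mod3]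

lemma w_pos (j : ℕ) : 1 ≤ w j := by have := w_mod3 j; omega

/-- `2 ^ T ≡ 1` modulo the cofactor. -/
lemma w_dvd (j : ℕ) : (w j : ℤ) ∣ 2 ^ (T j) - 1 := by
  induction j with
  | zero => exact ⟨3, by simp [w, T, st]⟩
  | succ j ih =>
    rw [w_succ, T_succ]
    push_cast
    set c : ℤ := (2 ^ (m j) + 1 : ℤ) / 3 with hc
    have h3 : (3 : ℤ) * c = 2 ^ (m j) + 1 := by
      have := three_dvd j
      have h' : ((3 * ((2 ^ (m j) + 1) / 3) : ℕ) : ℤ) = ((2 ^ (m j) + 1 : ℕ) : ℤ) := by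
        exact_mod_cast this
      push_cast at h'
      rw [hc]
      exact h'
    have hcop : IsCoprime (w j : ℤ) c := by
      -- 2 ^ m = 2 * (2 ^ T) ^ (3 t) ≡ 2 mod w, so 3 c ≡ 3 mod w
      have h1 : (w j : ℤ) ∣ 2 ^ (m j) - 2 := by
        have e : m j = T j * (3 * ((j + 1) * (2 * NN j + 4) + 3 ^ (j + 1) + NN j + j + 10)) + 1 := by
          rw [m_eq]; ring
        rw [e, pow_add, pow_mul]
        have h2 : ((2 : ℤ) ^ T j - 1) ∣
            ((2 : ℤ) ^ T j) ^ (3 * ((j + 1) * (2 * NN j + 4) + 3 ^ (j + 1) + NN j + j + 10)) - 1 := by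
          have := sub_dvd_pow_sub_pow ((2 : ℤ) ^ T j) 1
            (3 * ((j + 1) * (2 * NN j + 4) + 3 ^ (j + 1) + NN j + j + 10))
          simpa using this
        obtain ⟨d, hd⟩ := ih.trans h2
        exact ⟨2 * d, by linear_combination 2 * hd⟩
      obtain ⟨d, hd⟩ := h1
      have hcop3 : IsCoprime (w j : ℤ) 3 := by
        have hn : Nat.Coprime (w j) 3 := by
          rw [Nat.coprime_comm, Nat.Prime.coprime_iff_not_dvd Nat.prime_three]
          have := w_mod3 j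
          omega
        exact_mod_cast Nat.isCoprime_iff_coprime.mpr hn
      have h4 : IsCoprime (w j : ℤ) (3 * c) := by
        have : (3 : ℤ) * c = 3 + (w j : ℤ) * d := by linear_combination h3 + hd
        rw [this]
        exact (IsCoprime.add_mul_left_right_iff (z := d)).mpr hcop3
      exact (IsCoprime.mul_right_iff.mp h4).2
    apply IsCoprime.mul_dvd hcop
    · refine ih.trans ?_
      have := sub_dvd_pow_sub_pow ((2 : ℤ) ^ T j) 1 (m j)
      rw [pow_mul]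
      simpa using this
    · have h5 : (c : ℤ) ∣ 2 ^ (m j) + 1 := ⟨3, by rw [← h3]; ring⟩
      refine h5.trans ?_
      obtain ⟨e, he⟩ : ∃ e, T j = 2 * e := ⟨T j / 2, by have := T_even j; omega⟩
      have h6 : (2 : ℤ) ^ (m j) + 1 ∣ (2 ^ (m j)) ^ 2 - 1 := ⟨2 ^ (m j) - 1, by ring⟩
      refine h6.trans ?_
      have := sub_dvd_pow_sub_pow (((2 : ℤ) ^ (m j)) ^ 2) 1 e
      have e2 : (2 : ℤ) ^ (T j * m j) = (((2 : ℤ) ^ (m j)) ^ 2) ^ e := by
        rw [← pow_mul, ← pow_mul, he]; congr 1; ring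
      rw [e2]
      simpa using this

lemma two_pow_T_mod9 (j : ℕ) : 2 ^ (T j) % 9 = 4 ∨ 2 ^ (T j) % 9 = 7 := by
  have h2 := T_even j
  have h3 := T_mod3 j
  have h6 : T j % 6 = 2 ∨ T j % 6 = 4 := by omega
  have e : 2 ^ (T j) = (2 ^ 6) ^ (T j / 6) * 2 ^ (T j % 6) := by
    rw [← pow_mul, ← pow_add]; congr 1; omega
  rw [e, Nat.mul_mod, Nat.pow_mod]
  rcases h6 with h | h <;> rw [h] <;> norm_num

/-- `2 ^ T = 1 + 3 a` with `a = w q` not divisible by `3`. -/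
lemma exists_q (j : ℕ) : ∃ q : ℤ, (2 : ℤ) ^ (T j) = 1 + 3 * (w j * q) ∧ ¬ (3 : ℤ) ∣ (w j : ℤ) * q := by
  have h9 := two_pow_T_mod9 j
  have h9' : ((2 : ℤ) ^ (T j)) % 9 = 4 ∨ ((2 : ℤ) ^ (T j)) % 9 = 7 := by
    rcases h9 with h | h
    · left; exact_mod_cast h
    · right; exact_mod_cast h
  have hw := w_dvd j
  have h3 : (3 : ℤ) ∣ 2 ^ (T j) - 1 := by omega
  have hcop3 : IsCoprime (3 : ℤ) (w j : ℤ) := by
    have hn : Nat.Coprime 3 (w j) := by
      rw [Nat.Prime.coprime_iff_not_dvd Nat.prime_three]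
      have := w_mod3 j
      omega
    exact_mod_cast Nat.isCoprime_iff_coprime.mpr hn
  obtain ⟨q, hq⟩ := hcop3.mul_dvd h3 hw
  refine ⟨q, by linear_combination hq, ?_⟩
  rintro ⟨e, he⟩
  have : (2 : ℤ) ^ T j = 1 + 9 * e := by linear_combination hq + 3 * he
  omega

/-- Key injectivity: the cofactors of the powers of `2 ^ T` are distinct modulo `3 ^ J`. -/
lemma pow_inj (j J : ℕ) (s s' : ℕ) (hs : s < 3 ^ J) (hs' : s' < 3 ^ J)
    (h : ((3 : ℤ) ^ (J + 1)) ∣ (2 : ℤ) ^ (T j * s) - 2 ^ (T j * s')) : s = s' := by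
  obtain ⟨q, hq, hq3⟩ := exists_q j
  have hord := ZMod.orderOf_one_add_mul_prime Nat.prime_three (by norm_num) ((w j : ℤ) * q)
    (by exact_mod_cast hq3) J
  set g : ZMod (3 ^ (J + 1)) := 1 + (3 : ℕ) * (((w j : ℤ) * q : ℤ) : ZMod (3 ^ (J + 1))) with hg
  have hg2 : g = (2 : ZMod (3 ^ (J + 1))) ^ (T j) := by
    have := congrArg (Int.cast : ℤ → ZMod (3 ^ (J + 1))) hq
    push_cast at this
    rw [hg, this]
    push_cast
    ring
  have hpow : g ^ s = g ^ s' := by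
    have h1 : (((2 : ℤ) ^ (T j * s) - 2 ^ (T j * s') : ℤ) : ZMod (3 ^ (J + 1))) = 0 := by
      rw [ZMod.intCast_zmod_eq_zero_iff_dvd]
      exact_mod_cast h
    push_cast at h1
    rw [hg2, ← pow_mul, ← pow_mul]
    exact sub_eq_zero.mp h1
  have hinj := pow_injOn_Iio_orderOf (x := g)
  rw [hord] at hinj
  exact hinj (Set.mem_Iio.mpr hs) (Set.mem_Iio.mpr hs') hpow

end Pool.Agent.H819R3.Recip
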