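import Mathlib
import Pool.Agent.H819R3.Recip1

set_option autoImplicit false

namespace Pool.Agent.H819R3.Recip

lemma m_ge1 (j : ℕ) : T j * 3 ^ (j + 1) + NN j + j + 10 ≤ m j := by
  have h := T_pos j
  rw [m_eq]
  have h3 : 0 < 3 ^ (j + 1) := by positivity
  nlinarith [Nat.zero_le (NN j), Nat.zero_le j, Nat.zero_le ((j + 1) * (2 * NN j + 4)),
    Nat.zero_le (T j * 3 ^ (j + 1)), Nat.zero_le ((T j - 1) * (NN j)),
    mul_le_mul h (le_refl (NN j)) (Nat.zero_le _) (Nat.zero_le _),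
    mul_le_mul h (le_refl j) (Nat.zero_le _) (Nat.zero_le _),
    Nat.zero_le (T j * ((j + 1) * (2 * NN j + 4)))]

lemma m_ge2 (j : ℕ) : (j + 1) * (2 * NN j + 4) + 3 ≤ m j := by
  have h := T_pos j
  rw [m_eq]
  have h3 : 0 < 3 ^ (j + 1) := by positivity
  nlinarith [Nat.zero_le (NN j), Nat.zero_le j, Nat.zero_le ((j + 1) * (2 * NN j + 4)),
    Nat.zero_le (T j * 3 ^ (j + 1)),
    mul_le_mul h (le_refl ((j + 1) * (2 * NN j + 4))) (Nat.zero_le _) (Nat.zero_le _),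
    Nat.zero_le (T j * NN j), Nat.zero_le (T j * j)]

lemma m_succ_ge (j : ℕ) : m j + 10 ≤ m (j + 1) := by
  have h := m_ge1 (j + 1)
  rw [N_succ] at h
  have : 0 ≤ T (j + 1) * 3 ^ (j + 1 + 1) := Nat.zero_le _
  omega

lemma m_mono : StrictMono m := strictMono_nat_of_lt_succ (fun j => by have := m_succ_ge j; omega)

noncomputable def xs (j : ℕ) : ℝ := (3 ^ j * w j : ℝ) / 2 ^ (NN j)

lemma xs_succ (j : ℕ) : xs (j + 1) = xs j * (1 + 1 / 2 ^ (m j)) := by
  unfold xs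
  rw [w_succ, N_succ]
  have h3 : (3 : ℝ) * (((2 ^ (m j) + 1) / 3 : ℕ) : ℝ) = 2 ^ (m j) + 1 := by
    exact_mod_cast three_dvd j
  push_cast
  rw [pow_succ, pow_add]
  have h2 : (2 : ℝ) ^ (m j) ≠ 0 := by positivity
  have h2' : (2 : ℝ) ^ (NN j) ≠ 0 := by positivity
  field_simp
  linear_combination (w j : ℝ) * h3

lemma xs_zero : xs 0 = 1 := by simp [xs, w, NN, st]

lemma xs_pos (j : ℕ) : 1 ≤ xs j := by
  induction j with
  | zero => rw [xs_zero]
  | succ j ih =>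
    rw [xs_succ]
    have : (0 : ℝ) ≤ 1 / 2 ^ (m j) := by positivity
    nlinarith

noncomputable def ub (j : ℕ) : ℝ := xs j + 4 / 2 ^ (m j)

lemma two_pow_m_succ (j : ℕ) : (4 : ℝ) / 2 ^ (m (j + 1)) ≤ 2 / 2 ^ (m j) := by
  have h := m_succ_ge j
  have h1 : (2 : ℝ) ^ (m j + 1) ≤ 2 ^ (m (j + 1)) := pow_le_pow_right₀ (by norm_num) (by omega)
  rw [pow_succ] at h1
  rw [div_le_div_iff₀ (by positivity) (by positivity)]
  nlinarith

lemma ub_le (j : ℕ) : ub j ≤ 2 := by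
  induction j with
  | zero =>
    unfold ub
    rw [xs_zero]
    have h := m_ge1 0
    have h1 : (2 : ℝ) ^ 10 ≤ 2 ^ (m 0) := pow_le_pow_right₀ (by norm_num) (by omega)
    have : (4 : ℝ) / 2 ^ (m 0) ≤ 1 := by
      rw [div_le_one (by positivity)]
      norm_num at h1 ⊢
      linarith
    linarith
  | succ j ih =>
    have h0 := xs_pos j
    have h1 : xs j ≤ 2 := by
      unfold ub at ih
      have : (0 : ℝ) ≤ 4 / 2 ^ (m j) := by positivity
      linarith
    have h2 := two_pow_m_succ j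
    unfold ub at ih ⊢
    rw [xs_succ]
    have h3 : xs j * (1 / 2 ^ (m j)) ≤ 2 * (1 / 2 ^ (m j)) := by gcongr
    have h4 : (4 : ℝ) / 2 ^ (m j) = 2 * (1 / 2 ^ (m j)) + 2 / 2 ^ (m j) := by ring
    nlinarith

lemma xs_le (j : ℕ) : xs j ≤ 2 := by
  have h := ub_le j
  unfold ub at h
  have : (0 : ℝ) ≤ 4 / 2 ^ (m j) := by positivity
  linarith

lemma ub_anti : Antitone ub := antitone_nat_of_succ_le (fun j => by
  have h1 := xs_le j
  have h2 := two_pow_m_succ j
  unfold ub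
  rw [xs_succ]
  have h3 : xs j * (1 / 2 ^ (m j)) ≤ 2 * (1 / 2 ^ (m j)) := by gcongr
  have h4 : (4 : ℝ) / 2 ^ (m j) = 2 * (1 / 2 ^ (m j)) + 2 / 2 ^ (m j) := by ring
  nlinarith)

lemma xs_mono : Monotone xs := monotone_nat_of_le_succ (fun j => by
  rw [xs_succ]
  have := xs_pos j
  have h : (0 : ℝ) ≤ 1 / 2 ^ (m j) := by positivity
  nlinarith)

noncomputable def x : ℝ := ⨆ j, xs j

lemma x_mem (j : ℕ) : xs j ≤ x ∧ x ≤ xs j + 4 / 2 ^ (m j) := by
  have h := Monotone.ciSup_mem_iInter_Icc_of_antitone xs_mono ub_anti (fun j => by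
    unfold ub
    have : (0 : ℝ) ≤ 4 / 2 ^ (m j) := by positivity
    show xs j ≤ xs j + 4 / 2 ^ (m j)
    linarith)
  rw [Set.mem_iInter] at h
  exact h j

lemma x_pos : 1 ≤ x := by
  have := (x_mem 0).1
  rw [xs_zero] at this
  exact this

/-! ### The digits of `x` are sparse -/

lemma digit_zero (j p : ℕ) (h1 : NN j < p) (h2 : p + 2 < m j) :
    ⌊(2 : ℝ) ^ p * x⌋ % 2 = 0 := by
  obtain ⟨hx1, hx2⟩ := x_mem j
  obtain ⟨c, rfl⟩ : ∃ c, p = NN j + (c + 1) := ⟨p - NN j - 1, by omega⟩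
  have hE : (2 : ℝ) ^ (NN j + (c + 1)) * xs j = ((3 ^ j * w j * 2 ^ c * 2 : ℤ) : ℝ) := by
    unfold xs
    push_cast
    rw [pow_add, pow_succ (2 : ℝ) c]
    have h2' : (2 : ℝ) ^ (NN j) ≠ 0 := by positivity
    field_simp
  have hfl : ⌊(2 : ℝ) ^ (NN j + (c + 1)) * x⌋ = (3 ^ j * w j * 2 ^ c * 2 : ℤ) := by
    rw [Int.floor_eq_iff]
    constructor
    · rw [← hE]; gcongr
    · rw [← hE]
      have h3 : (2 : ℝ) ^ (NN j + (c + 1)) * x ≤
          2 ^ (NN j + (c + 1)) * xs j + 2 ^ (NN j + (c + 1)) * (4 / 2 ^ (m j)) := by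
        rw [← mul_add]; gcongr
      have h4 : (2 : ℝ) ^ (NN j + (c + 1)) * (4 / 2 ^ (m j)) < 1 := by
        rw [← mul_div_assoc, div_lt_one (by positivity)]
        have : (2 : ℝ) ^ (NN j + (c + 1)) * 4 = 2 ^ (NN j + (c + 1) + 2) := by
          rw [pow_add _ _ 2]; norm_num
        rw [this]
        exact pow_lt_pow_right₀ (by norm_num) h2
      linarith
  rw [hfl]
  omega

/-- number of digits `1` among the first `N` digits -/
noncomputable def cnt (N : ℕ) : ℕ :=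
  ((Finset.range N).filter (fun n : ℕ => ⌊(2 : ℝ) ^ (n + 1) * x⌋ % 2 = 1)).card

lemma cnt_le (j N : ℕ) (h2 : N + 3 ≤ m (j + 1)) : cnt N ≤ 2 * NN j + 4 := by
  unfold cnt
  have hsub : (Finset.range N).filter (fun n : ℕ => ⌊(2 : ℝ) ^ (n + 1) * x⌋ % 2 = 1) ⊆
      Finset.range (NN j) ∪ Finset.Ico (m j - 3) (m j + NN j) := by
    intro n hn
    rw [Finset.mem_filter, Finset.mem_range] at hn
    rw [Finset.mem_union, Finset.mem_range, Finset.mem_Ico]
    by_contra hcon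
    push Not at hcon
    obtain ⟨h3, h4⟩ := hcon
    by_cases h5 : n + 1 + 2 < m j
    · have := digit_zero j (n + 1) (by omega) h5
      omega
    · have h6 : m j + NN j ≤ n := h4 (by omega)
      have := digit_zero (j + 1) (n + 1) (by rw [N_succ]; omega) (by omega)
      omega
  refine (Finset.card_le_card hsub).trans ((Finset.card_union_le _ _).trans ?_)
  rw [Finset.card_range, Nat.card_Ico]
  omega

lemma exists_stage (J N : ℕ) (h : m J ≤ N + 3) : ∃ j, J ≤ j ∧ m j ≤ N + 3 ∧ N + 3 < m (j + 1) := by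
  have hex : ∃ j, N + 3 < m (j + 1) := ⟨N + 3, by
    have := m_mono.id_le (N + 3 + 1)
    simp only [id_eq] at this
    omega⟩
  classical
  let j := Nat.find hex
  have hj : N + 3 < m (j + 1) := Nat.find_spec hex
  have hJ : J ≤ j := by
    by_contra hc
    have : m (j + 1) ≤ m J := m_mono.monotone (by omega)
    omega
  refine ⟨j, hJ, ?_, hj⟩
  rcases Nat.eq_zero_or_pos j with h0 | h0
  · rw [h0]
    have : m 0 ≤ m J := m_mono.monotone (Nat.zero_le _)
    omega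
  · have := Nat.find_min hex (m := j - 1) (by omega)
    have e : j - 1 + 1 = j := by omega
    rw [e] at this
    omega

lemma cnt_ratio (J N : ℕ) (h : m J ≤ N + 3) (hN : 0 < N) : (cnt N : ℝ) / N ≤ 1 / (J + 1) := by
  obtain ⟨j, hJ, h1, h2⟩ := exists_stage J N h
  have h3 := cnt_le j N (by omega)
  have h4 := m_ge2 j
  have h5 : (j + 1) * (2 * NN j + 4) ≤ N := by omega
  have h6 : (cnt N) * (J + 1) ≤ N := by
    calc cnt N * (J + 1) ≤ (2 * NN j + 4) * (j + 1) := Nat.mul_le_mul h3 (by omega)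
      _ ≤ N := by rw [mul_comm]; exact h5
  rw [div_le_div_iff₀ (by positivity) (by positivity)]
  have : ((cnt N * (J + 1) : ℕ) : ℝ) ≤ N := by exact_mod_cast h6
  push_cast at this
  linarith

end Pool.Agent.H819R3.Recip
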