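import Mathlib
import Pool.Agent.H819R3.Recip2

set_option autoImplicit false

namespace Pool.Agent.H819R3.Recip

/-- distinct integers in an interval of length `L` -/
lemma card_le_of_interval (S : Finset ℕ) (G : ℕ → ℤ) (hG : Set.InjOn G S) (α L : ℝ) (hL : 0 ≤ L)
    (h : ∀ s ∈ S, α ≤ G s ∧ (G s : ℝ) ≤ α + L) : (S.card : ℝ) ≤ L + 1 := by
  have h1 : S.card = (S.image G).card := (Finset.card_image_of_injOn hG).symm
  have h2 : S.image G ⊆ Finset.Icc ⌈α⌉ ⌊α + L⌋ := by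
    intro g hg
    rw [Finset.mem_image] at hg
    obtain ⟨s, hs, rfl⟩ := hg
    rw [Finset.mem_Icc]
    exact ⟨Int.ceil_le.mpr (h s hs).1, Int.le_floor.mpr (h s hs).2⟩
  have h3 := Finset.card_le_card h2
  rw [← h1, Int.card_Icc] at h3
  have h4 : (S.card : ℝ) ≤ ((⌊α + L⌋ + 1 - ⌈α⌉).toNat : ℝ) := by exact_mod_cast h3
  have h5 := Int.floor_le (α + L)
  have h6 := Int.le_ceil α
  rcases le_or_gt 0 (⌊α + L⌋ + 1 - ⌈α⌉) with h7 | h7
  · have h8 : (((⌊α + L⌋ + 1 - ⌈α⌉).toNat : ℤ) : ℝ) = ((⌊α + L⌋ + 1 - ⌈α⌉ : ℤ) : ℝ) := by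
      rw [Int.toNat_of_nonneg h7]
    push_cast at h8
    linarith
  · have h8 : (⌊α + L⌋ + 1 - ⌈α⌉).toNat = 0 := Int.toNat_eq_zero.mpr h7.le
    rw [h8] at h4
    push_cast at h4
    linarith

/-- Fibre count. -/
lemma fiber (J k : ℕ) (C' : ℤ) (q : ℕ → ℤ)
    (hq : ∀ s s' : ℕ, s < 3 ^ J → s' < 3 ^ J → ((3 : ℤ) ^ J) ∣ C' * (q s - q s') → s = s')
    (c0 : ℝ) (z : ℕ → ℝ) (η : ℝ) (hη : 0 ≤ η)
    (hz : ∀ s : ℕ, s < 3 ^ J → c0 + 2 ^ k * (C' * q s) / 3 ^ J - 2 ^ k * η ≤ z s ∧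
      z s ≤ c0 + 2 ^ k * (C' * q s) / 3 ^ J) (a : ℤ) :
    (((Finset.range (3 ^ J)).filter (fun s => ⌊z s⌋ % 2 ^ k = a)).card : ℝ) ≤
      3 ^ J * (1 / 2 ^ k + η) + 1 := by
  set G : ℕ → ℤ := fun s => C' * q s - 3 ^ J * (⌊z s⌋ / 2 ^ k) with hGdef
  apply card_le_of_interval _ G _ (3 ^ J * (a - c0) / 2 ^ k) _ (by positivity)
  · intro s hs
    rw [Finset.mem_filter, Finset.mem_range] at hs
    obtain ⟨hs1, hs2⟩ := hs
    obtain ⟨hz1, hz2⟩ := hz s hs1
    have hdiv := Int.emod_add_mul_ediv ⌊z s⌋ (2 ^ k)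
    rw [hs2] at hdiv
    set h : ℤ := ⌊z s⌋ / 2 ^ k with hh
    have hf1 := Int.floor_le (z s)
    have hf2 := Int.lt_floor_add_one (z s)
    have hdiv' : ((⌊z s⌋ : ℤ) : ℝ) = a + 2 ^ k * h := by
      rw [← hdiv]; push_cast; ring
    rw [hdiv'] at hf1 hf2
    have h3 : (0 : ℝ) < 3 ^ J := by positivity
    have h2 : (0 : ℝ) < 2 ^ k := by positivity
    have hGs : ((G s : ℤ) : ℝ) = (C' * q s : ℝ) - 3 ^ J * h := by
      simp only [hGdef]; push_cast; rfl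
    rw [hGs]
    have e1 : 2 ^ k * ((C' : ℝ) * q s) / 3 ^ J = 2 ^ k * (((C' : ℝ) * q s - 3 ^ J * h) / 3 ^ J)
        + 2 ^ k * h := by
      field_simp
      ring
    set g : ℝ := ((C' : ℝ) * q s - 3 ^ J * h) / 3 ^ J with hg
    have e2 : (C' : ℝ) * q s - 3 ^ J * h = 3 ^ J * g := by rw [hg]; field_simp
    rw [e1] at hz1 hz2
    rw [e2]
    constructor
    · -- a ≤ z - 2^k h ≤ c0 + 2^k g
      have : (a : ℝ) - c0 ≤ 2 ^ k * g := by linarith
      rw [div_le_iff₀ h2]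
      nlinarith
    · have h4 : 2 ^ k * g ≤ (a : ℝ) - c0 + 1 + 2 ^ k * η := by linarith
      have h5 : 3 ^ J * ((a : ℝ) - c0) / 2 ^ k + 3 ^ J * (1 / 2 ^ k + η) =
          3 ^ J * (((a : ℝ) - c0 + 1 + 2 ^ k * η) / 2 ^ k) := by
        field_simp
        ring
      rw [h5]
      apply mul_le_mul_of_nonneg_left _ h3.le
      rw [le_div_iff₀ h2]
      linarith
  · intro s hs s' hs' heq
    rw [Finset.mem_coe, Finset.mem_filter, Finset.mem_range] at hs hs'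
    apply hq s s' hs.1 hs'.1
    simp only [hGdef] at heq
    exact ⟨⌊z s⌋ / 2 ^ k - ⌊z s'⌋ / 2 ^ k, by linear_combination heq⟩

/-- splitting a range into residue classes -/
lemma card_range_mul (T0 M : ℕ) (hT : 0 < T0) (P : ℕ → Prop) [DecidablePred P] (b : ℝ)
    (h : ∀ n0 : ℕ, n0 < T0 →
      (((Finset.range M).filter (fun s => P (n0 + T0 * s))).card : ℝ) ≤ b) :
    (((Finset.range (T0 * M)).filter P).card : ℝ) ≤ T0 * b := by
  have h1 : ((Finset.range (T0 * M)).filter P).card =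
      ∑ n0 ∈ Finset.range T0,
        (((Finset.range (T0 * M)).filter P).filter (fun n => n % T0 = n0)).card :=
    Finset.card_eq_sum_card_fiberwise (fun n _ => Finset.mem_coe.mpr (Finset.mem_range.mpr (Nat.mod_lt n hT)))
  rw [h1]
  push_cast
  have h2 : ∀ n0 ∈ Finset.range T0,
      ((((Finset.range (T0 * M)).filter P).filter (fun n => n % T0 = n0)).card : ℝ) ≤ b := by
    intro n0 hn0
    rw [Finset.mem_range] at hn0
    refine le_trans ?_ (h n0 hn0)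
    norm_cast
    apply Finset.card_le_card_of_injOn (fun n => n / T0)
    · intro n hn
      rw [Finset.mem_coe, Finset.mem_filter, Finset.mem_filter, Finset.mem_range] at hn
      rw [Finset.mem_coe, Finset.mem_filter, Finset.mem_range]
      refine ⟨Nat.div_lt_of_lt_mul hn.1.1, ?_⟩
      have : n0 + T0 * (n / T0) = n := by rw [← hn.2]; exact Nat.mod_add_div n T0
      rw [this]
      exact hn.1.2
    · intro n hn n' hn' heq
      rw [Finset.mem_coe, Finset.mem_filter] at hn hn'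
      simp only at heq
      rw [← Nat.mod_add_div n T0, ← Nat.mod_add_div n' T0, hn.2, hn'.2, heq]
  calc ∑ n0 ∈ Finset.range T0,
        ((((Finset.range (T0 * M)).filter P).filter (fun n => n % T0 = n0)).card : ℝ)
      ≤ ∑ n0 ∈ Finset.range T0, b := Finset.sum_le_sum h2
    _ = T0 * b := by rw [Finset.sum_const, Finset.card_range, nsmul_eq_mul]

/-- `y = 1 / x` is close to `1 / x_j` -/
lemma y_close (j : ℕ) : (xs j)⁻¹ - 4 / 2 ^ (m j) ≤ x⁻¹ ∧ x⁻¹ ≤ (xs j)⁻¹ := by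
  obtain ⟨h1, h2⟩ := x_mem j
  have hx := x_pos
  have hxs := xs_pos j
  constructor
  · have e : (xs j)⁻¹ - x⁻¹ = (x - xs j) / (xs j * x) := by
      field_simp
    have h3 : (x - xs j) / (xs j * x) ≤ x - xs j := by
      apply div_le_self (by linarith)
      nlinarith
    linarith
  · exact inv_anti₀ (by linarith) h1

/-- Main counting estimate. -/
lemma count_block (J k : ℕ) (a : ℤ) :
    (((Finset.range (T (J + 1) * 3 ^ J)).filter
      (fun n => ⌊(2 : ℝ) ^ (n + k) * x⁻¹⌋ % 2 ^ k = a)).card : ℝ) ≤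
      T (J + 1) * (3 ^ J * (1 / 2 ^ k + 1 / 2 ^ (J + 8)) + 1) := by
  have hTpos : 0 < T (J + 1) := by have := T_pos (J + 1); omega
  apply card_range_mul (T (J + 1)) (3 ^ J) hTpos
    (fun n => ⌊(2 : ℝ) ^ (n + k) * x⁻¹⌋ % 2 ^ k = a)
  intro n0 hn0
  have hw : (0 : ℝ) < w (J + 1) := by have := w_pos (J + 1); exact_mod_cast this
  have hwZ : (w (J + 1) : ℤ) ≠ 0 := by have := w_pos (J + 1); omega
  -- the quotients
  have hqs : ∀ s : ℕ, ∃ q : ℤ, (2 : ℤ) ^ (T (J + 1) * s) = 1 + 3 * (w (J + 1) * q) := by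
    intro s
    obtain ⟨q, hq, -⟩ := exists_q (J + 1)
    have h1 : (3 * (w (J + 1) : ℤ)) ∣ (2 : ℤ) ^ (T (J + 1)) - 1 := ⟨q, by rw [hq]; ring⟩
    have h2 := sub_dvd_pow_sub_pow ((2 : ℤ) ^ (T (J + 1))) 1 s
    rw [one_pow, ← pow_mul] at h2
    obtain ⟨d, hd⟩ := h1.trans h2
    exact ⟨d, by linear_combination hd⟩
  choose q hq using hqs
  apply fiber J k (2 ^ (n0 + NN (J + 1))) q _
    (2 ^ (n0 + k + NN (J + 1)) / (3 ^ (J + 1) * w (J + 1)))
    (fun s => (2 : ℝ) ^ (n0 + T (J + 1) * s + k) * x⁻¹) (1 / 2 ^ (J + 8)) (by positivity) _ a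
  · intro s s' hs hs' hdvd
    apply pow_inj (J + 1) J s s' hs hs'
    have hcop : IsCoprime ((3 : ℤ) ^ J) (2 ^ (n0 + NN (J + 1))) := by
      apply IsCoprime.pow
      exact (Int.isCoprime_iff_gcd_eq_one).mpr (by decide)
    have h1 : (3 : ℤ) ^ J ∣ q s - q s' := hcop.dvd_of_dvd_mul_left hdvd
    obtain ⟨d, hd⟩ := h1
    exact ⟨w (J + 1) * d, by rw [hq, hq]; rw [pow_succ]; linear_combination (3 * (w (J + 1) : ℤ)) * hd⟩
  · intro s hs
    obtain ⟨hy1, hy2⟩ := y_close (J + 1)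
    have hP : (0 : ℝ) < 2 ^ (n0 + T (J + 1) * s + k) := by positivity
    have hqR : (2 : ℝ) ^ (T (J + 1) * s) = 1 + 3 * (w (J + 1) * q s) := by exact_mod_cast hq s
    have key : (2 : ℝ) ^ (n0 + T (J + 1) * s + k) * (xs (J + 1))⁻¹ =
        2 ^ (n0 + k + NN (J + 1)) / (3 ^ (J + 1) * w (J + 1)) +
          2 ^ k * (((2 ^ (n0 + NN (J + 1)) : ℤ) : ℝ) * q s) / 3 ^ J := by
      unfold xs
      have e : (2 : ℝ) ^ (n0 + T (J + 1) * s + k) = 2 ^ n0 * 2 ^ (T (J + 1) * s) * 2 ^ k := by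
        rw [pow_add, pow_add]
      rw [e, hqR]
      push_cast
      rw [pow_add _ (n0 + k), pow_add _ n0 k, pow_add _ n0 (NN (J + 1)), pow_succ (3 : ℝ) J]
      field_simp
    constructor
    · show _ ≤ (2 : ℝ) ^ (n0 + T (J + 1) * s + k) * x⁻¹
      have h1 : (2 : ℝ) ^ (n0 + T (J + 1) * s + k) * ((xs (J + 1))⁻¹ - 4 / 2 ^ (m (J + 1))) ≤
          (2 : ℝ) ^ (n0 + T (J + 1) * s + k) * x⁻¹ := mul_le_mul_of_nonneg_left hy1 hP.le
      refine le_trans ?_ h1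
      rw [mul_sub, key]
      have h2 : (2 : ℝ) ^ (n0 + T (J + 1) * s + k) * (4 / 2 ^ (m (J + 1))) ≤
          2 ^ k * (1 / 2 ^ (J + 8)) := by
        rw [← mul_div_assoc, mul_one_div, div_le_div_iff₀ (by positivity) (by positivity)]
        have hm := m_ge1 (J + 1)
        have e1 : (2 : ℝ) ^ (n0 + T (J + 1) * s + k) * 4 * 2 ^ (J + 8) =
            2 ^ k * 2 ^ (n0 + T (J + 1) * s + J + 10) := by
          have : (4 : ℝ) = 2 ^ 2 := by norm_num
          rw [this, ← pow_add, ← pow_add, ← pow_add]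
          congr 1
          ring
        rw [e1]
        apply mul_le_mul_of_nonneg_left _ (by positivity)
        apply pow_le_pow_right₀ (by norm_num)
        have h3 : T (J + 1) * (s + 1) ≤ T (J + 1) * 3 ^ (J + 1 + 1) := by
          apply Nat.mul_le_mul_left
          have : 3 ^ J ≤ 3 ^ (J + 1 + 1) := Nat.pow_le_pow_right (by norm_num) (by omega)
          omega
        rw [mul_add, mul_one] at h3
        omega
      linarith
    · show (2 : ℝ) ^ (n0 + T (J + 1) * s + k) * x⁻¹ ≤ _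
      rw [← key]
      exact mul_le_mul_of_nonneg_left hy2 hP.le

end Pool.Agent.H819R3.Recip
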